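import Pool.Agent.NH3.CC.LA
import Pool.Agent.NH5.PR.BOX
import Pool.Agent.Y356.CQ.EQ
import Pool.Agent.NH3.FK.Gen2

/-!
# The complete class, fixed numbers of primes: the law in a box
-/

set_option autoImplicit false
set_option linter.unusedVariables false
set_option linter.unusedSectionVars false

open scoped Classical

namespace Pool.Agent.NH3.CC

open Finset Matrix
open Pool.Agent.NH1 (sq2 sq7)
open Pool.Agent.Y703.CQ (nr prs HB S_EQ)
open Pool.Agent.NH5.PR (ex2 Gd Sol)
open Pool.Agent.NH5.PR.BX (tt ex2_eq HB_sub)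
open Pool.Agent.NH3.FK.G (BoxH BilH)

section main

variable {ι : Type} [Fintype ι] [LinearOrder ι] {m n : ℕ}

/-- the residue classes modulo four -/
noncomputable def a3 (J3 : Finset ι) (k : ι) : ZMod 2 := if k ∈ J3 then 1 else 0

theorem tt_eq (J3 : Finset ι) : (fun k l => a3 J3 k * a3 J3 l) = tt J3 := by
  funext k l
  unfold a3 tt
  by_cases h1 : k ∈ J3 <;> by_cases h2 : l ∈ J3 <;> simp [h1, h2]

/-- the condition for a tuple -/
theorem gd_tuple {JR JC J3 : Finset ι} (f : ℕ → ZMod 2) {p : ι → ℕ} (hp : Function.Injective p)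
    (hpr : ∀ i, (p i).Prime ∧ p i ≠ 2) (hR : ∀ i, i ∈ JR ↔ sq7 (p i)) (hC : ∀ i, i ∈ JC ↔ sq2 (p i))
    (h3 : ∀ i, i ∈ J3 ↔ p i % 4 = 3) :
    Gd f (univ.image p) ↔ GdJ JR JC
      (ex2 (fun k l => a3 J3 k * a3 J3 l) fun e : prs (univ : Finset ι) => nr (p e.1.1) (p e.1.2))
      fun k => f (p k) := by
  have hex : ∀ k l, ex2 (fun k l => a3 J3 k * a3 J3 l)
      (fun e : prs (univ : Finset ι) => nr (p e.1.1) (p e.1.2)) k l = nr (p l) (p k) := by
    intro k l
    rw [tt_eq]
    exact ex2_eq hp hpr h3 k l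
  have hsum : ∀ g : ℕ → ZMod 2, ∑ x ∈ univ.image p, g x = ∑ l, g (p l) := fun g =>
    Finset.sum_image fun a _ b _ h => hp h
  unfold Gd GdJ Sol
  simp only [hex, hsum]
  constructor
  · intro h y hy0 hy
    set x : ℕ → ZMod 2 := fun t => if h : ∃ l, p l = t then y h.choose else 0 with hx
    have hxp : ∀ l, x (p l) = y l := by
      intro l
      have hex : ∃ l', p l' = p l := ⟨l, rfl⟩
      rw [hx]
      simp only
      rw [dif_pos hex]
      exact congrArg y (hp hex.choose_spec)
    intro l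
    rw [← hxp]
    refine h x ⟨?_, ?_⟩ _ (mem_image_of_mem _ (mem_univ _))
    · intro q hq hq2
      obtain ⟨k, -, rfl⟩ := mem_image.1 hq
      rw [hxp]
      exact hy0 k fun hk => hq2 ((hC k).1 hk)
    · intro q hq hq7
      obtain ⟨k, -, rfl⟩ := mem_image.1 hq
      simp only [hxp]
      exact hy k ((hR k).2 hq7)
  · rintro h x ⟨h1, h2⟩ q hq
    obtain ⟨k, -, rfl⟩ := mem_image.1 hq
    refine h (fun l => x (p l)) ?_ ?_ k
    · intro k hk
      exact h1 _ (mem_image_of_mem _ (mem_univ _)) fun hk' => hk ((hC k).2 hk')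
    · intro k hk
      exact h2 _ (mem_image_of_mem _ (mem_univ _)) ((hR k).1 hk)

/-- **The law in a box.** -/
theorem box_law {JR JC J3 : Finset ι} {b : Fin m → ZMod 2} {r c : Ks m n → ι}
    (h : Nm JR JC (a3 J3) b r c) {l₀ : ι} (hl1 : l₀ ∉ JR) (hl2 : l₀ ∉ JC) {B₀ : ℕ → Prop}
    {cl : ℕ → ℕ} {τ : ι → ℕ} (f : ℕ → ZMod 2)
    (hB : ∀ (i : ι) (p : ℕ), B₀ p → cl p = τ i → (p.Prime ∧ p ≠ 2) ∧ (i ∈ JR ↔ sq7 p) ∧
      (i ∈ JC ↔ sq2 p) ∧ (i ∈ J3 ↔ p % 4 = 3)) :
    BoxH (HB univ) B₀ cl τ (Gd f) (fr m n b) := by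
  refine ⟨2 ^ Fintype.card ι * 2 ^ (prs (univ : Finset ι)).card, by positivity, ?_⟩
  intro C X κ hκ hCX hHB hC hdis
  have hEQ : S_EQ := Pool.Agent.Y356.CQ.t_EQ
  set R : ℝ := 2 ^ (prs (univ : Finset ι)).card * (κ * ∏ j, (X j : ℝ)) with hR
  have hinj : ∀ p ∈ Fintype.piFinset C, Function.Injective p := by
    intro p hp i j hij
    rw [Fintype.mem_piFinset] at hp
    by_contra hne
    have h1 := Finset.disjoint_left.1 (hdis i j hne) (hp i)
    rw [hij] at h1
    exact h1 (hp j)
  have hall : ∀ p ∈ Fintype.piFinset C, ∀ i, ((p i).Prime ∧ p i ≠ 2) ∧ (i ∈ JR ↔ sq7 (p i)) ∧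
      (i ∈ JC ↔ sq2 (p i)) ∧ (i ∈ J3 ↔ p i % 4 = 3) := by
    intro p hp i
    rw [Fintype.mem_piFinset] at hp
    obtain ⟨h1, h2⟩ := hC i _ (hp i)
    exact hB i (p i) h1 h2
  -- the part with given labels
  have h1 : ∀ β : ι → ZMod 2,
      |(((Fintype.piFinset C).filter fun p => (fun i => f (p i)) = β ∧
          Gd f (univ.image p)).card : ℝ) -
        fr m n b * (((Fintype.piFinset C).filter fun p => (fun i => f (p i)) = β).card : ℝ)| ≤
      R := by
    intro β
    set C' : ι → Finset ℕ := fun i => (C i).filter fun q => f q = β i with hC'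
    have hpi : (Fintype.piFinset C).filter (fun p => (fun i => f (p i)) = β) =
        Fintype.piFinset C' := by
      ext p
      simp only [Finset.mem_filter, Fintype.mem_piFinset, hC']
      constructor
      · rintro ⟨h2, h3⟩ i
        exact ⟨h2 i, congrFun h3 i⟩
      · intro h2
        exact ⟨fun i => (h2 i).1, funext fun i => (h2 i).2⟩
    set Q : (prs (univ : Finset ι) → ZMod 2) → Prop := fun α =>
      GdJ JR JC (ex2 (fun k l => a3 J3 k * a3 J3 l) α) β with hQ
    have h3 := hEQ ι univ C' X κ hκ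
      (fun i => (Finset.card_le_card (Finset.filter_subset _ _)).trans (hCX i))
      (HB_sub hHB fun i q => f q = β i) Q
    have h4 : ((Fintype.piFinset C).filter fun p => (fun i => f (p i)) = β ∧
        Gd f (univ.image p)) = ((Fintype.piFinset C').filter fun p =>
          Q fun e => nr (p e.1.1) (p e.1.2)) := by
      rw [← hpi, Finset.filter_filter]
      refine Finset.filter_congr fun p hp => ?_
      refine and_congr_right fun hl => ?_
      have e1 := hall p hp
      rw [gd_tuple f (hinj p hp) (fun i => (e1 i).1) (fun i => (e1 i).2.1)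
        (fun i => (e1 i).2.2.1) fun i => (e1 i).2.2.2]
      subst hl
      exact Iff.rfl
    have h5 : (((Fintype.piFinset C').card : ℕ) : ℝ) = ∏ j, ((C' j).card : ℝ) := by
      rw [Fintype.card_piFinset]
      push_cast
      rfl
    have h6 : ((univ.filter Q).card : ℝ) / 2 ^ (prs (univ : Finset ι)).card = fr m n b := by
      have := count_gd h hl1 hl2 β
      convert this
    rw [h4, hpi, h5]
    rw [h6] at h3
    exact h3
  -- sum over the labels
  have hfib : ∀ T : (ι → ℕ) → Prop,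
      (((Fintype.piFinset C).filter fun p => T p).card : ℝ) =
      ∑ β : ι → ZMod 2, (((Fintype.piFinset C).filter fun p =>
        (fun i => f (p i)) = β ∧ T p).card : ℝ) := by
    intro T
    rw [Finset.card_eq_sum_card_fiberwise (f := fun (p : ι → ℕ) (i : ι) => f (p i))
      (t := univ) (by
        intro p hp
        exact Finset.mem_coe.2 (mem_univ _))]
    push_cast
    refine Finset.sum_congr rfl fun β hβ => ?_
    congr 2
    ext p
    simp only [Finset.mem_filter]
    tauto
  have hf1 := hfib fun p => Gd f (univ.image p)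
  have hf2 := hfib fun _ => True
  simp only [and_true, Finset.filter_true] at hf2
  rw [hf1, hf2, Finset.mul_sum, ← Finset.sum_sub_distrib]
  refine (Finset.abs_sum_le_sum_abs _ _).trans ?_
  refine (Finset.sum_le_sum fun β hβ => h1 β).trans ?_
  rw [Finset.sum_const, nsmul_eq_mul, Finset.card_univ, Fintype.card_fun, ZMod.card]
  push_cast
  rw [hR]
  exact le_of_eq (by ring)

end main

end Pool.Agent.NH3.CC
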