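import Pool.Agent.NH3.CC.Law
import Pool.Agent.NH5.PR.CNT
import Pool.Agent.Y703.CQ.Key

/-!
# The complete class: fixed numbers of primes in sets of positive density, natural order
-/

set_option autoImplicit false
set_option linter.unusedVariables false
set_option linter.unusedSectionVars false

open scoped Classical

namespace Pool.Agent.NH3.CC

open Finset Filter Topology
open Pool.Agent.NH1 (sq2 sq7 Pm sS sI sA sB)
open Pool.Agent.Y703.CX (sm la jj XX)
open Pool.Agent.Y703.CQ (nr prs HB S_EQ sg)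
open Pool.Agent.Y703.CQ.K302 (le_XX prs_card root12)
open Pool.Agent.NH5.PR (ex2 Gd Sol S_BIL CntP)
open Pool.Agent.V11291.FK
open Pool.Agent.NH3.FK (Wt)
open Pool.Agent.NH3.FK.G (In tn Fn card_In card_tn qgn nk)

section boxes

variable {ι : Type} [Fintype ι] [LinearOrder ι]

/-- **The sum over the boxes.** -/
theorem conv {B₀ : ℕ → Prop} {cl : ℕ → ℕ} {τ s : ι → ℕ} {G : Finset ℕ → Prop} {α : ℝ}
    (hBox : Pool.Agent.NH3.FK.G.BoxH (HB univ) B₀ cl τ G α)
    (hB : ∀ i p, B₀ p → cl p = τ i → p.Prime ∧ p ≠ 2 ∧ p % 4 = s i) (hBp : ∀ p, B₀ p → p.Prime)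
    (hBIL : S_BIL) (A : ℕ → Prop) :
    BoxH (TW (fun p => A p ∧ B₀ p) cl τ Wt) (fun p => G (univ.image p)) α := by
  obtain ⟨M, hM, hbox0⟩ := hBox
  obtain ⟨C, hC, hBb⟩ := hBIL
  refine ⟨M, C, hM, hC, ?_⟩
  intro X z H N κ hH hz hκ hκz hN
  set P : ι → ℕ → Prop := PG (fun p => A p ∧ B₀ p) cl τ with hPdef
  have hP : ∀ i p, P i p → p.Prime ∧ p ≠ 2 ∧ p % 4 = s i := fun i p h => hB i p h.1.2 h.2
  have hTW : TW (fun p => A p ∧ B₀ p) cl τ Wt X = Tup P X := by
    unfold TW
    ext p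
    rw [Finset.mem_filter]
    exact ⟨fun h => h.1, fun h => ⟨h, trivial⟩⟩
  rw [hTW]
  have hPp : ∀ i p, P i p → p.Prime := fun i p h => (hP i p h).1
  have hz0 : (0 : ℝ) < z := by exact_mod_cast hz
  -- the value in a box
  set B : Finset (ι → ℕ) := Fintype.piFinset fun _ : ι => range N with hBd
  have hmem : ∀ p ∈ Tup P X, (fun i => jj H (p i)) ∈ B := by
    intro p hp
    rw [mem_Tup hPp] at hp
    rw [hBd, Fintype.mem_piFinset]
    intro i
    rw [mem_range]
    have hp0 := (hPp i _ (hp.1 i)).pos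
    have hqX : p i ≤ X := by
      refine le_trans ?_ hp.2.2
      exact Nat.le_of_dvd (Finset.prod_pos fun j _ => (hPp j _ (hp.1 j)).pos)
        (Finset.dvd_prod_of_mem _ (mem_univ i))
    have h3 : ((jj H (p i) : ℕ) : ℝ) < N := by
      refine lt_of_le_of_lt (Nat.floor_le (mul_nonneg (Nat.cast_nonneg _)
        (Real.log_nonneg (by exact_mod_cast hp0)))) ?_
      refine lt_of_le_of_lt ?_ hN
      refine mul_le_mul_of_nonneg_left ?_ (Nat.cast_nonneg _)
      exact Real.log_le_log (by exact_mod_cast hp0) (by exact_mod_cast hqX)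
    exact_mod_cast h3
  have hfib : ∀ T : (ι → ℕ) → Prop,
      (((Tup P X).filter fun p => ¬ Exc X z H p ∧ T p).card : ℝ) =
      ∑ b ∈ B, ((((Tup P X).filter fun p => ¬ Exc X z H p ∧
        (fun i => jj H (p i)) = b).filter T).card : ℝ) := by
    intro T
    rw [Finset.card_eq_sum_card_fiberwise (f := fun (p : ι → ℕ) (i : ι) => jj H (p i))
      (t := B) (fun p hp => by
        rw [mem_coe, mem_filter] at hp
        exact mem_coe.2 (hmem p hp.1))]
    push_cast
    refine Finset.sum_congr rfl fun b _ => ?_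
    congr 2
    ext p
    simp only [mem_filter]
    tauto
  have hf1 := hfib fun p => G (univ.image p)
  have hf2 := hfib fun _ => True
  simp only [and_true, Finset.filter_true] at hf2
  rw [hf1, hf2, Finset.mul_sum, ← Finset.sum_sub_distrib]
  refine (Finset.abs_sum_le_sum_abs _ _).trans ?_
  have hbox : ∀ b ∈ B, |((((Tup P X).filter fun p => ¬ Exc X z H p ∧
        (fun i => jj H (p i)) = b).filter fun p => G (univ.image p)).card : ℝ) -
      α * (((Tup P X).filter fun p => ¬ Exc X z H p ∧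
        (fun i => jj H (p i)) = b).card : ℝ)| ≤
      M * (κ * X) := by
    intro b _
    by_cases hb : Function.Injective b ∧ ∏ i, XX H (b i) ≤ X
    · rw [fib_eq hPp hH hb.1 hb.2]
      have hmb : ∀ i, ∀ p ∈ bx P z H b i, P i p ∧ jj H p = b i ∧ z < p ∧ p ≤ XX H (b i) := by
        intro i p hp
        unfold bx at hp
        rw [mem_filter, mem_Icc] at hp
        exact ⟨hp.2.1, hp.2.2.1, hp.2.2.2, hp.1.2⟩
      have hdis : ∀ i l, i ≠ l → Disjoint (bx P z H b i) (bx P z H b l) := by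
        intro i l hil
        rw [Finset.disjoint_left]
        intro p hp hp'
        exact hil (hb.1 ((hmb i p hp).2.1.symm.trans (hmb l p hp').2.1))
      have h1 := hbox0 (bx P z H b) (fun i => XX H (b i)) κ hκ
        (fun i => by
          refine (Finset.card_filter_le _ _).trans ?_
          rw [Nat.card_Icc]
          omega)
        (by
          intro i l hil hi c d hc hd
          have hk0 : (0 : ℝ) ≤ κ * ((XX H (b i) : ℝ) * (XX H (b l) : ℝ)) := by positivity
          rcases (bx P z H b i).eq_empty_or_nonempty with he | ⟨p₀, hp₀⟩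
          · rw [he, Finset.sum_empty, norm_zero]
            exact hk0
          rcases (bx P z H b l).eq_empty_or_nonempty with he | ⟨q₀, hq₀⟩
          · rw [he]
            simp only [Finset.sum_empty, Finset.sum_const_zero, norm_zero]
            exact hk0
          have hzi : z ≤ XX H (b i) := by
            have := hmb i p₀ hp₀
            omega
          have hzl : z ≤ XX H (b l) := by
            have := hmb l q₀ hq₀
            omega
          have h3 := hBb (bx P z H b i) (bx P z H b l) (XX H (b i)) (XX H (b l)) z (s i) (s l) c d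
            (fun p hp => by
              have h4 := hmb i p hp
              have h5 := hP i p h4.1
              exact ⟨h5.1, h5.2.1, h5.2.2, h4.2.2.2⟩)
            (fun p hp => by
              have h4 := hmb l p hp
              have h5 := hP l p h4.1
              exact ⟨h5.1, h5.2.1, h5.2.2, h4.2.2.2⟩)
            (hdis i l hil) hz hzi hzl hc hd
          exact root12 (norm_nonneg _) hκ (Nat.cast_nonneg _) (Nat.cast_nonneg _) hz0 h3 hκz)
        (fun i p hp => (hmb i p hp).1.imp And.right id) hdis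
      refine h1.trans ?_
      have h2 : ∏ j, ((XX H (b j) : ℕ) : ℝ) ≤ X := by exact_mod_cast hb.2
      have h4 : κ * ∏ j, ((XX H (b j) : ℕ) : ℝ) ≤ κ * X := mul_le_mul_of_nonneg_left h2 hκ
      exact mul_le_mul_of_nonneg_left h4 hM
    · rw [fib_empty hb]
      simp only [Finset.filter_empty, Finset.card_empty, Nat.cast_zero, mul_zero, sub_zero, abs_zero]
      positivity
  refine (Finset.sum_le_sum hbox).trans ?_
  rw [Finset.sum_const, nsmul_eq_mul, hBd, Fintype.card_piFinset]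
  simp only [Finset.card_range, Finset.prod_const, Finset.card_univ]
  push_cast
  exact le_rfl

/-- the exceptional tuples -/
theorem exc_cc {B : ℕ → Prop} {cl : ℕ → ℕ} {τ : ι → ℕ} (hB : ∀ p, B p → Bp p) {j : ℕ}
    (hj : Fintype.card ι = j + 1) : ExcH (TW B cl τ Wt) j := by
  have hBp : ∀ p, B p → p.Prime := fun p h => (hB p h).1
  refine exc_abs hj Pool.Agent.NH5.PR.AA (fun X p hp => ?_)
    (fun X z H hX hH => Pool.Agent.NH5.PR.t_CNT.cut X z H _ hX hH)
    (fun X z H hX hH => Pool.Agent.NH5.PR.t_CNT.coll X z H hX hH)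
  rw [mem_TW hBp] at hp
  obtain ⟨⟨h3, h4, h6⟩, -⟩ := hp
  refine ⟨fun i => hBp _ (h3 i).1, h4, h6, ?_⟩
  have hprod : ∏ q ∈ univ.image p, q = ∏ i, p i :=
    Finset.prod_image fun a _ b _ h => h4 h
  unfold Pool.Agent.NH5.PR.AA
  rw [mem_filter, mem_powerset]
  refine ⟨fun q hq => ?_, fun q hq => ?_, by rw [hprod]; exact h6⟩
  · rw [mem_range]
    have h7 : q ≤ ∏ r ∈ univ.image p, r := Nat.le_of_dvd
      (Finset.prod_pos fun r hr => by
        obtain ⟨i, -, rfl⟩ := mem_image.1 hr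
        exact (hBp _ (h3 i).1).pos) (Finset.dvd_prod_of_mem _ hq)
    rw [hprod] at h7
    omega
  · obtain ⟨i, -, rfl⟩ := mem_image.1 hq
    exact hB _ (h3 i).1

/-- the size of the family of tuples -/
theorem low_cc {B : ℕ → Prop} {cl : ℕ → ℕ} {τ : ι → ℕ} (hBp : ∀ p, B p → p.Prime) (i₀ : ι)
    (hD : ∀ i, Dn (PG B cl τ i)) : LowH (TW B cl τ Wt) := by
  obtain ⟨c, X₀, hc, h⟩ := low (P := PG B cl τ) (fun i p h => hBp _ h.1) hD i₀
  refine ⟨c, X₀, hc, fun X hX => ?_⟩
  have hTW : TW B cl τ Wt X = Tup (PG B cl τ) X := by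
    unfold TW
    ext p
    rw [Finset.mem_filter]
    exact ⟨fun h => h.1, fun h => ⟨h, trivial⟩⟩
  rw [hTW]
  exact h X hX

end boxes

/-- the family of the numbers up to `X`: `n r` primes of the kind `r`, all in `A` -/
noncomputable def Nu (A : ℕ → Prop) (n : Fin 8 → ℕ) (X : ℕ) : Finset ℕ :=
  (Icc 1 X).filter fun D => Squarefree D ∧ (∀ p ∈ D.primeFactors, A p ∧ Bp p) ∧
    ∀ r : Fin 8, nk cl r D.primeFactors = n r

/-- from the sets to the numbers -/
theorem card_Nu (A : ℕ → Prop) (n : Fin 8 → ℕ) [LinearOrder (In n)] (X : ℕ) (Q : Finset ℕ → Prop) :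
    ((Nu A n X).filter fun D => Q D.primeFactors).card =
      ((FW (fun p => A p ∧ Bp p) cl (tn n) Wt X).filter Q).card := by
  have hB : ∀ p, A p ∧ Bp p → p.Prime := fun p h => h.2.1
  refine Finset.card_nbij' (fun D => D.primeFactors) (fun S => ∏ p ∈ S, p) ?_ ?_ ?_ ?_
  · intro D hD
    rw [mem_coe, mem_filter] at hD
    obtain ⟨hD, hQ⟩ := hD
    unfold Nu at hD
    rw [mem_filter, mem_Icc] at hD
    rw [mem_coe, mem_filter, mem_FW hB]
    refine ⟨⟨hD.2.2.1, (qgn fun p _ => cl_lt p).2 hD.2.2.2, ?_, trivial⟩, hQ⟩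
    rw [Nat.prod_primeFactors_of_squarefree hD.2.1]
    exact hD.1.2
  · intro S hS
    rw [mem_coe, mem_filter, mem_FW hB] at hS
    obtain ⟨⟨h2, h3, h4, -⟩, h5⟩ := hS
    have hpf : (∏ p ∈ S, p).primeFactors = S := Nat.primeFactors_prod fun p hp => hB p (h2 p hp)
    have hsq : Squarefree (∏ p ∈ S, p) := by
      refine Finset.squarefree_prod_of_pairwise_isCoprime ?_ fun p hp =>
        (hB p (h2 p hp)).prime.squarefree
      intro p hp q hq hpq
      exact Nat.coprime_iff_isRelPrime.1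
        ((Nat.coprime_primes (hB p (h2 p hp)) (hB q (h2 q hq))).2 hpq)
    rw [mem_coe, mem_filter]
    unfold Nu
    rw [mem_filter, mem_Icc, hpf]
    exact ⟨⟨⟨Finset.prod_pos fun p hp => (hB p (h2 p hp)).pos, h4⟩, hsq, h2,
      (qgn fun p _ => cl_lt p).1 h3⟩, h5⟩
  · intro D hD
    rw [mem_coe, mem_filter] at hD
    obtain ⟨hD, hQ⟩ := hD
    unfold Nu at hD
    rw [mem_filter] at hD
    exact Nat.prod_primeFactors_of_squarefree hD.2.1
  · intro S hS
    rw [mem_coe, mem_filter, mem_FW hB] at hS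
    exact Nat.primeFactors_prod fun p hp => hB p (hS.1.1 p hp)

/-- each kind which is used has positive lower density in `A` -/
def Rich (A : ℕ → Prop) (n : Fin 8 → ℕ) : Prop :=
  ∀ r : Fin 8, 0 < n r → Dn fun p => A p ∧ Bp p ∧ cl p = r

theorem res4 (n : Fin 8 → ℕ) (i : In n) (p : ℕ) (h : Bp p) (h2 : cl p = tn n i) :
    p.Prime ∧ p ≠ 2 ∧ p % 4 = if (i.1 : ℕ) % 2 = 1 then 3 else 1 := by
  have hodd : p % 2 = 1 := h.1.eq_two_or_odd.resolve_left h.2.1
  refine ⟨h.1, h.2.1, ?_⟩
  unfold cl tn at h2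
  split_ifs at h2 ⊢ <;> omega

/-- **The law in natural order.** -/
theorem den_cc (hBIL : S_BIL) (n : Fin 8 → ℕ) (hN : n 4 + n 7 = n 1 + n 2) (hI : 0 < n 5 + n 6)
    (f : ℕ → ZMod 2) {A : ℕ → Prop} (hA : Rich A n) :
    Tendsto (fun X : ℕ => (((Nu A n X).filter fun D => Gd f D.primeFactors).card : ℝ) /
      ((Nu A n X).card : ℝ)) atTop (𝓝 (FR (n 0) (n 3) (n 1 + n 2))) := by
  let inst : LinearOrder (In n) := LinearOrder.lift' (Fintype.equivFin (In n))
    (Fintype.equivFin (In n)).injective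
  have hB : ∀ p, A p ∧ Bp p → p.Prime := fun p h => h.2.1
  have hDn : ∀ i : In n, Dn (PG (fun p => A p ∧ Bp p) cl (tn n) i) := by
    rintro ⟨r, k⟩
    have h := hA r k.pos
    refine Pool.Agent.NH3.FK.dn_mono (fun p hp => ?_) h
    exact ⟨⟨hp.1, hp.2.1⟩, hp.2.2⟩
  obtain ⟨i₀, -⟩ := ex_l0 n hI
  have hcard : ∀ X, (Nu A n X).card = (FW (fun p => A p ∧ Bp p) cl (tn n) Wt X).card := by
    intro X
    have h := card_Nu A n X fun _ => True
    rw [Finset.filter_true, Finset.filter_true] at h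
    exact h
  have hcardG : ∀ X, ((Nu A n X).filter fun D => Gd f D.primeFactors).card =
      ((FW (fun p => A p ∧ Bp p) cl (tn n) Wt X).filter (Gd f)).card := fun X => card_Nu A n X _
  simp only [hcard, hcardG]
  by_cases h1 : Fintype.card (In n) = 1
  · -- only one prime
    have hz : n 0 = 0 ∧ n 3 = 0 ∧ n 1 + n 2 = 0 ∧ n 4 = 0 ∧ n 7 = 0 := by
      rw [card_In] at h1
      simp only [Fin.sum_univ_eight] at h1
      omega
    have hF : FR (n 0) (n 3) (n 1 + n 2) = 1 := by
      rw [hz.1, hz.2.1, hz.2.2.1]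
      unfold FR fr
      have e : (univ.filter fun M : Matrix (Ks (0 + 0) 0) (Ks (0 + 0) 0) (ZMod 2) =>
          Sm (bb 0 0) M ∧ M.det ≠ 0) =
          univ.filter fun M : Matrix (Ks (0 + 0) 0) (Ks (0 + 0) 0) (ZMod 2) => Sm (bb 0 0) M := by
        refine Finset.filter_congr fun M _ => ⟨fun h => h.1, fun h => ⟨h, ?_⟩⟩
        have : IsEmpty (Ks (0 + 0) 0) := ⟨fun x => x.elim (fun y => y.elim0) fun y => y.elim0⟩
        rw [Matrix.det_isEmpty]
        decide
      rw [e, div_self]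
      have : 0 < (univ.filter fun M : Matrix (Ks (0 + 0) 0) (Ks (0 + 0) 0) (ZMod 2) =>
          Sm (bb 0 0) M).card := by
        refine Finset.card_pos.2 ⟨0, ?_⟩
        rw [mem_filter]
        exact ⟨mem_univ _, fun i => i.elim0⟩
      exact_mod_cast this.ne'
    rw [hF]
    refine tendsto_const_nhds.congr' ?_
    obtain ⟨c₀, X₀, hc₀, hlow⟩ := FW_low (W := Wt) hB i₀ (low_cc hB i₀ hDn)
    have t3 : Tendsto (fun X : ℕ => Real.log (Real.log (X : ℝ))) atTop atTop :=
      Real.tendsto_log_atTop.comp (Real.tendsto_log_atTop.comp tendsto_natCast_atTop_atTop)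
    filter_upwards [eventually_ge_atTop X₀, eventually_ge_atTop 3, t3.eventually_ge_atTop 1]
      with X hX hX3 hll
    have hX1 : (1 : ℝ) < X := by exact_mod_cast (by omega : 1 < X)
    have hl : 0 < Real.log X := Real.log_pos hX1
    have h4 := hlow X hX
    have h6 : (0 : ℝ) < ((FW (fun p => A p ∧ Bp p) cl (tn n) Wt X).card : ℝ) := by
      refine lt_of_lt_of_le ?_ h4
      have : 0 < Real.log (Real.log X) := by linarith
      positivity
    have h7 : (FW (fun p => A p ∧ Bp p) cl (tn n) Wt X).filter (Gd f) =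
        FW (fun p => A p ∧ Bp p) cl (tn n) Wt X := by
      refine Finset.filter_true_of_mem fun S hS => ?_
      rw [mem_FW hB] at hS
      intro x hx p hp
      refine hx.1 p hp fun hp2 => ?_
      have hq := (qgn fun p _ => cl_lt p).1 hS.2.1
      have hb := (hS.1 p hp).2
      have hodd : p % 2 = 1 := hb.1.eq_two_or_odd.resolve_left hb.2.1
      have hk : ∀ r : Fin 8, n r = 0 → cl p ≠ r := by
        intro r hr hcl
        have h8 := hq r
        rw [hr] at h8
        unfold nk at h8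
        rw [Finset.card_eq_zero, Finset.filter_eq_empty_iff] at h8
        exact h8 hp hcl
      have k0 := hk 0 hz.1
      have k3 := hk 3 hz.2.1
      have k4 := hk 4 hz.2.2.2.1
      have k7 := hk 7 hz.2.2.2.2
      have f4 : ((4 : Fin 8) : ℕ) = 4 := rfl
      have f7 : ((7 : Fin 8) : ℕ) = 7 := rfl
      have f3 : ((3 : Fin 8) : ℕ) = 3 := rfl
      have f0 : ((0 : Fin 8) : ℕ) = 0 := rfl
      rw [f4] at k4
      rw [f7] at k7
      rw [f3] at k3
      rw [f0] at k0
      unfold cl at k0 k3 k4 k7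
      unfold sq2 at hp2
      split_ifs at k0 k3 k4 k7 <;> omega
    rw [h7, div_self h6.ne']
  · have hc0 : 0 < Fintype.card (In n) := Fintype.card_pos_iff.2 ⟨i₀⟩
    obtain ⟨j, hj⟩ : ∃ j, Fintype.card (In n) = j + 2 := ⟨Fintype.card (In n) - 2, by omega⟩
    exact set_lawG hB Wt hj (fr_nonneg _ _ _) (fr_le_one _ _ _)
      (conv (s := fun i => if (i.1 : ℕ) % 2 = 1 then 3 else 1) (box_n n hN hI f) (res4 n)
        (fun p h => h.1) hBIL A)
      (exc_cc (fun p h => h.2) (by omega)) (low_cc hB i₀ hDn)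

/-- the size of the family -/
theorem size_den (n : Fin 8 → ℕ) (hI : 0 < n 5 + n 6) {A : ℕ → Prop} (hA : Rich A n) :
    ∃ (c₁ c₂ : ℝ) (X₀ : ℕ), 0 < c₁ ∧ 0 < c₂ ∧ ∀ X : ℕ, X₀ ≤ X →
      c₁ * (X * Real.log (Real.log X) ^ ((∑ r, n r) - 1) / Real.log X) ≤ ((Nu A n X).card : ℝ) ∧
      ((Nu A n X).card : ℝ) ≤ c₂ * (X * Real.log (Real.log X) ^ ((∑ r, n r) - 1) / Real.log X) := by
  let inst : LinearOrder (In n) := LinearOrder.lift' (Fintype.equivFin (In n))
    (Fintype.equivFin (In n)).injective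
  have hB : ∀ p, A p ∧ Bp p → p.Prime := fun p h => h.2.1
  have hDn : ∀ i : In n, Dn (PG (fun p => A p ∧ Bp p) cl (tn n) i) := by
    rintro ⟨r, k⟩
    have h := hA r k.pos
    refine Pool.Agent.NH3.FK.dn_mono (fun p hp => ?_) h
    exact ⟨⟨hp.1, hp.2.1⟩, hp.2.2⟩
  obtain ⟨i₀, -⟩ := ex_l0 n hI
  have hcard : ∀ X, (Nu A n X).card = (FW (fun p => A p ∧ Bp p) cl (tn n) Wt X).card := by
    intro X
    have h := card_Nu A n X fun _ => True
    rw [Finset.filter_true, Finset.filter_true] at h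
    exact h
  simp only [hcard]
  obtain ⟨c₁, X₀, hc₁, hlow⟩ := FW_low (W := Wt) hB i₀ (low_cc hB i₀ hDn)
  have hc0 : 0 < Fintype.card (In n) := Fintype.card_pos_iff.2 ⟨i₀⟩
  obtain ⟨j, hj⟩ : ∃ j, Fintype.card (In n) = j + 1 := ⟨Fintype.card (In n) - 1, by omega⟩
  obtain ⟨C, X₁, hC, hup⟩ := FW_up (cl := cl) (τ := tn n) hB hj Wt
  refine ⟨c₁, C, max X₀ X₁, hc₁, hC, fun X hX => ?_⟩
  have h6 := hlow X ((le_max_left _ _).trans hX)
  rw [← card_In n]
  have e : Fintype.card (In n) - 1 = j := by omega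
  rw [e] at h6 ⊢
  exact ⟨h6, hup X ((le_max_right _ _).trans hX)⟩

end Pool.Agent.NH3.CC
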