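import Pool.Agent.NH3.CC.Uni
import Pool.Agent.NH3.CC.Den
import Pool.Agent.NH5.LK.All
import Pool.Agent.NH5.PR.BIL
import Pool.Agent.NH5.PR.LA
import Pool.Agent.NH5.PR.ETA

/-!
# The complete class: from the numbers to the discriminants
-/

set_option autoImplicit false
set_option linter.unusedVariables false
set_option linter.unusedSectionVars false

open scoped Classical

namespace Pool.Agent.NH3.CC

open Finset Filter Topology
open Pool.Agent.NH1 (sq2 sq7 Pm sS sI sA sB gX)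
open Pool.Agent.NH5.PR (Gd S_BIL)
open Pool.Agent.NH5.GD (Adm Good)
open Pool.Agent.NH5.LK (NoSel full_ev gd_good nosel_good rank_of_full)
open Pool.Agent.NH3.FK.G (Fn nk)

/-- the family: all prime factors are in `A`, `n r` of them of the kind `r` -/
def Fm (A : ℕ → Prop) (n : Fin 8 → ℕ) (D : ℕ) : Prop :=
  Squarefree D ∧ (∀ p ∈ D.primeFactors, A p ∧ Bp p) ∧ ∀ r : Fin 8, nk cl r D.primeFactors = n r

theorem Fm.odd {A : ℕ → Prop} {n : Fin 8 → ℕ} {D : ℕ} (h : Fm A n D) : D % 2 = 1 := by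
  by_contra h2
  have h3 : 2 ∣ D := by omega
  exact (h.2.1 2 (Nat.mem_primeFactors.2 ⟨Nat.prime_two, h3, h.1.ne_zero⟩)).2.2.1 rfl

/-- the discriminant with a given absolute value -/
def dsc (n : ℕ) : ℤ := if n % 4 = 1 then n else -n

theorem dsc_mod {n : ℕ} (h : n % 2 = 1) : dsc n % 4 = 1 := by
  unfold dsc
  split_ifs <;> omega

theorem natAbs_dsc (n : ℕ) : (dsc n).natAbs = n := by
  unfold dsc
  split_ifs
  · exact Int.natAbs_natCast n
  · rw [Int.natAbs_neg, Int.natAbs_natCast]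

theorem dsc_natAbs {D : ℤ} (h : D % 4 = 1) : dsc D.natAbs = D := by
  unfold dsc
  split_ifs with h1 <;> omega

/-- the discriminants of the family -/
theorem adm_Fm {A : ℕ → Prop} {n : Fin 8 → ℕ} {D : ℤ} (h4 : D % 4 = 1) (h : Fm A n D.natAbs) :
    Adm D := by
  refine ⟨Int.squarefree_natAbs.1 h.1, h4, fun h7 => ?_⟩
  have h8 : 7 ∈ D.natAbs.primeFactors := by
    rw [Nat.mem_primeFactors]
    refine ⟨by norm_num, Int.natCast_dvd.1 (by exact_mod_cast h7), h.1.ne_zero⟩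
  exact (h.2.1 7 h8).2.2.2 rfl

theorem bal_Fm {A : ℕ → Prop} {n : Fin 8 → ℕ} (hN : n 4 + n 7 = n 1 + n 2) {D : ℕ}
    (h : Fm A n D) : (sA D.primeFactors).card = (sB D.primeFactors).card := by
  have h1 : Fn Bp cl D.primeFactors n D := ⟨h.1, fun p hp => ⟨hp, (h.2.1 p hp).2⟩, h.2.2⟩
  exact (bal hN h1).2

theorem one_Fm {A : ℕ → Prop} {n : Fin 8 → ℕ} (hI : 0 < n 5 + n 6) : ¬ Fm A n 1 := by
  intro h
  have h5 := h.2.2 5
  have h6 := h.2.2 6
  rw [Nat.primeFactors_one] at h5 h6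
  unfold nk at h5 h6
  rw [Finset.filter_empty, Finset.card_empty] at h5 h6
  omega

/-- **The criterion for the discriminants of the family.** -/
theorem crit {A : ℕ → Prop} {n : Fin 8 → ℕ} (hN : n 4 + n 7 = n 1 + n 2) (hI : 0 < n 5 + n 6)
    {D : ℤ} (h4 : D % 4 = 1) (h : Fm A n D.natAbs) :
    (NoSel D ↔ Gd gX D.natAbs.primeFactors) ∧
      (NoSel D → Pool.Agent.Y687.RankBSD (5805 * D ^ 2) (-285714 * D ^ 3)) := by
  have hA := adm_Fm h4 h
  have hc := bal_Fm hN h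
  have h1 : D ≠ 1 := by
    rintro rfl
    exact one_Fm hI h
  have hF := full_ev hA h1 hc.ge (by omega)
  exact ⟨(nosel_good h4 hF).trans (gd_good hA hc).symm, rank_of_full h4 hF⟩

/-! ### counting -/

theorem ncard_dsc (Q : ℕ → Prop) (hQ : ∀ n, Q n → n % 2 = 1) :
    {D : ℤ | D % 4 = 1 ∧ Q D.natAbs}.ncard = {n : ℕ | Q n}.ncard := by
  have e : {D : ℤ | D % 4 = 1 ∧ Q D.natAbs} = dsc '' {n : ℕ | Q n} := by
    ext D
    simp only [Set.mem_ofPred_eq, Set.mem_image]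
    constructor
    · rintro ⟨h1, h2⟩
      exact ⟨D.natAbs, h2, dsc_natAbs h1⟩
    · rintro ⟨n, h1, rfl⟩
      refine ⟨dsc_mod (hQ n h1), ?_⟩
      rw [natAbs_dsc]
      exact h1
  rw [e, Set.ncard_image_of_injective]
  intro m n h
  have := congrArg Int.natAbs h
  rwa [natAbs_dsc, natAbs_dsc] at this

theorem card_dsc (Q : ℕ → Prop) (hQ : ∀ n, Q n → n % 2 = 1) (X : ℕ) :
    ((Icc (-(X : ℤ)) X).filter fun D => D % 4 = 1 ∧ Q D.natAbs).card =
      ((Icc 1 X).filter Q).card := by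
  refine Finset.card_nbij' (fun D => D.natAbs) dsc ?_ ?_ ?_ ?_
  · intro D hD
    rw [mem_coe, mem_filter, mem_Icc] at hD
    rw [mem_coe, mem_filter, mem_Icc]
    have := hQ _ hD.2.2
    refine ⟨⟨?_, ?_⟩, hD.2.2⟩
    · show 1 ≤ D.natAbs
      omega
    · show D.natAbs ≤ X
      omega
  · intro n hn
    rw [mem_coe, mem_filter, mem_Icc] at hn
    rw [mem_coe, mem_filter, mem_Icc]
    have h1 := dsc_mod (hQ n hn.2)
    refine ⟨?_, h1, ?_⟩
    · unfold dsc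
      split_ifs <;> omega
    · rw [natAbs_dsc]
      exact hn.2
  · intro D hD
    rw [mem_coe, mem_filter] at hD
    exact dsc_natAbs hD.2.1
  · intro n hn
    exact natAbs_dsc n

/-- **The sparse law.** -/
theorem law_fin (n : Fin 8 → ℕ) (hN : n 4 + n 7 = n 1 + n 2) (hI : 0 < n 5 + n 6)
    {ε : ℝ} (hε : 0 ≤ ε) :
    ∃ C : ℝ, 0 < C ∧ ∀ (A : Finset ℕ) (X : ℕ), 1 ≤ X → (∀ p ∈ A, p ≤ X) →
      (∀ r, 0 < n r → (X : ℝ) ^ (2 / 3 + ε) ≤ (nk cl r (A.filter Bp) : ℝ)) →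
      {D : ℤ | D % 4 = 1 ∧ Fm (fun p => p ∈ A) n D.natAbs}.ncard =
        ∏ r : Fin 8, (nk cl r (A.filter Bp)).choose (n r) ∧
      |({D : ℤ | (D % 4 = 1 ∧ Fm (fun p => p ∈ A) n D.natAbs) ∧ NoSel D}.ncard : ℝ) -
        FR (n 0) (n 3) (n 1 + n 2) *
          ({D : ℤ | D % 4 = 1 ∧ Fm (fun p => p ∈ A) n D.natAbs}.ncard : ℝ)| ≤
      C * (X : ℝ) ^ (-(ε / 2)) *
          ({D : ℤ | D % 4 = 1 ∧ Fm (fun p => p ∈ A) n D.natAbs}.ncard : ℝ) := by
  obtain ⟨C, hC, h⟩ := law_cc n hN hI gX hε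
  refine ⟨C, hC, fun A X hX hA hr => ?_⟩
  have e1 : {D : ℤ | D % 4 = 1 ∧ Fm (fun p => p ∈ A) n D.natAbs}.ncard =
      {D : ℕ | Fn Bp cl A n D}.ncard :=
    ncard_dsc (Fm (fun p => p ∈ A) n) fun m hm => hm.odd
  have e2 : {D : ℤ | (D % 4 = 1 ∧ Fm (fun p => p ∈ A) n D.natAbs) ∧ NoSel D}.ncard =
      {D : ℕ | Fn Bp cl A n D ∧ Gd gX D.primeFactors}.ncard := by
    have e3 : {D : ℤ | (D % 4 = 1 ∧ Fm (fun p => p ∈ A) n D.natAbs) ∧ NoSel D} =
        {D : ℤ | D % 4 = 1 ∧ (fun m : ℕ => Fm (fun p => p ∈ A) n m ∧ Gd gX m.primeFactors)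
          D.natAbs} := by
      ext D
      simp only [Set.mem_ofPred_eq]
      constructor
      · rintro ⟨⟨h1, h2⟩, h3⟩
        exact ⟨h1, h2, (crit hN hI h1 h2).1.1 h3⟩
      · rintro ⟨h1, h2, h3⟩
        exact ⟨⟨h1, h2⟩, (crit hN hI h1 h2).1.2 h3⟩
    rw [e3]
    exact ncard_dsc (fun m : ℕ => Fm (fun p => p ∈ A) n m ∧ Gd gX m.primeFactors)
      fun m hm => hm.1.odd
  rw [e1, e2]
  exact ⟨size_cc n A, h A X hX hA hr⟩

/-- **The law in natural order.** -/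
theorem den_fin (n : Fin 8 → ℕ) (hN : n 4 + n 7 = n 1 + n 2) (hI : 0 < n 5 + n 6)
    {A : ℕ → Prop} (hA : Rich A n) :
    Tendsto (fun X : ℕ =>
      (((Icc (-(X : ℤ)) X).filter fun D => (D % 4 = 1 ∧ Fm A n D.natAbs) ∧ NoSel D).card : ℝ) /
      (((Icc (-(X : ℤ)) X).filter fun D => D % 4 = 1 ∧ Fm A n D.natAbs).card : ℝ)) atTop
      (𝓝 (FR (n 0) (n 3) (n 1 + n 2))) ∧
    ∃ (c₁ c₂ : ℝ) (X₀ : ℕ), 0 < c₁ ∧ 0 < c₂ ∧ ∀ X : ℕ, X₀ ≤ X →
      c₁ * (X * Real.log (Real.log X) ^ ((∑ r, n r) - 1) / Real.log X) ≤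
        (((Icc (-(X : ℤ)) X).filter fun D => D % 4 = 1 ∧ Fm A n D.natAbs).card : ℝ) ∧
      (((Icc (-(X : ℤ)) X).filter fun D => D % 4 = 1 ∧ Fm A n D.natAbs).card : ℝ) ≤
        c₂ * (X * Real.log (Real.log X) ^ ((∑ r, n r) - 1) / Real.log X) := by
  have e1 : ∀ X : ℕ, ((Icc (-(X : ℤ)) X).filter fun D => D % 4 = 1 ∧ Fm A n D.natAbs).card =
      (Nu A n X).card := by
    intro X
    refine Eq.trans ?_ ((card_dsc (Fm A n) (fun m hm => hm.odd) X).trans (congrArg Finset.card ?_))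
    · congr 1
    · unfold Nu
      ext m
      rw [mem_filter, mem_filter]
      exact Iff.rfl
  have e2 : ∀ X : ℕ,
      ((Icc (-(X : ℤ)) X).filter fun D => (D % 4 = 1 ∧ Fm A n D.natAbs) ∧ NoSel D).card =
      ((Nu A n X).filter fun D => Gd gX D.primeFactors).card := by
    intro X
    have e3 : ((Icc (-(X : ℤ)) X).filter fun D => (D % 4 = 1 ∧ Fm A n D.natAbs) ∧ NoSel D) =
        ((Icc (-(X : ℤ)) X).filter fun D => D % 4 = 1 ∧
          (fun m : ℕ => Fm A n m ∧ Gd gX m.primeFactors) D.natAbs) := by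
      refine Finset.filter_congr fun D _ => ?_
      constructor
      · rintro ⟨⟨h1, h2⟩, h3⟩
        exact ⟨h1, h2, (crit hN hI h1 h2).1.1 h3⟩
      · rintro ⟨h1, h2, h3⟩
        exact ⟨⟨h1, h2⟩, (crit hN hI h1 h2).1.2 h3⟩
    rw [e3]
    refine Eq.trans ?_ ((card_dsc (fun m : ℕ => Fm A n m ∧ Gd gX m.primeFactors)
      (fun m hm => hm.1.odd) X).trans (congrArg Finset.card ?_))
    · congr 1
      ext D
      simp only [mem_filter]
    · unfold Nu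
      ext m
      simp only [mem_filter]
      rw [and_assoc]
      exact Iff.rfl
  constructor
  · refine (den_cc Pool.Agent.NH5.PR.t_BIL n hN hI gX hA).congr fun X => ?_
    rw [e1, e2]
  · obtain ⟨c₁, c₂, X₀, h1, h2, h3⟩ := size_den n hI hA
    refine ⟨c₁, c₂, X₀, h1, h2, fun X hX => ?_⟩
    rw [e1]
    exact h3 X hX

/-- the limits -/
theorem fr_lim (s t n : ℕ) : |FR s t n - ∏' i : ℕ, (1 - (1 / 2 : ℝ) ^ (i + 1))| ≤ 2 / 2 ^ n :=
  FR_eta (Pool.Agent.NH5.PR.t_LA Pool.Agent.NH5.PR.t_ETA) s t n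

end Pool.Agent.NH3.CC
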