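import Pool.Agent.NH3.CC.Box

/-!
# The complete class: the kinds of the primes and the numbering of the rows and columns
-/

set_option autoImplicit false
set_option linter.unusedVariables false
set_option linter.unusedSectionVars false

open scoped Classical

namespace Pool.Agent.NH3.CC

open Finset Matrix
open Pool.Agent.NH1 (sq2 sq7)
open Pool.Agent.Y703.CQ (nr prs HB S_EQ)
open Pool.Agent.NH5.PR (ex2 Gd Sol)
open Pool.Agent.NH3.FK.G (BoxH BilH In tn)

/-- the kind of a prime -/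
def cl (p : ℕ) : ℕ := p % 8 / 2 + if sq7 p then 0 else 4

/-- the odd primes different from `7` -/
def Bp (p : ℕ) : Prop := p.Prime ∧ p ≠ 2 ∧ p ≠ 7

theorem cl_lt (p : ℕ) : cl p < 8 := by
  unfold cl
  split_ifs <;> omega

/-- `s` zeros and `t` ones -/
def bb (s t : ℕ) (i : Fin (s + t)) : ZMod 2 := if (i : ℕ) < s then 0 else 1

theorem bb_left (s t : ℕ) (i : Fin s) : bb s t (Fin.castAdd t i) = 0 := by
  unfold bb
  rw [if_pos]
  exact i.2

theorem bb_right (s t : ℕ) (i : Fin t) : bb s t (Fin.natAdd s i) = 1 := by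
  unfold bb
  rw [if_neg]
  rw [Fin.val_natAdd]
  omega

section num

variable (n : Fin 8 → ℕ)

/-- the indices of a kind -/
def ix (k : Fin 8) (x : Fin (n k)) : In n := ⟨k, x⟩

theorem ix_inj (k : Fin 8) : Function.Injective (ix n k) := by
  intro x y h
  unfold ix at h
  simpa using h

theorem ix_ne {k l : Fin 8} (hkl : k ≠ l) (x : Fin (n k)) (y : Fin (n l)) : ix n k x ≠ ix n l y := by
  intro h
  exact hkl (congrArg Sigma.fst h)

theorem ix_kind {k : Fin 8} {i : In n} (h : i.1 = k) : ∃ x, ix n k x = i := by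
  obtain ⟨l, x⟩ := i
  simp only at h
  subst h
  exact ⟨x, rfl⟩

/-- the indices of type `S` -/
def iS : Fin (n 0 + n 3) → In n := Fin.append (ix n 0) (ix n 3)

/-- the indices of type `B` -/
def iB : Fin (n 1 + n 2) → In n := Fin.append (ix n 1) (ix n 2)

/-- the indices of type `A` -/
def iA : Fin (n 4 + n 7) → In n := Fin.append (ix n 4) (ix n 7)

theorem app_inj {s t : ℕ} {k l : Fin 8} (hk : k ≠ l) (f : Fin s → In n) (g : Fin t → In n)
    (hf : Function.Injective f) (hg : Function.Injective g) (h1 : ∀ x, (f x).1 = k)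
    (h2 : ∀ y, (g y).1 = l) : Function.Injective (Fin.append f g) := by
  rw [Fin.append_injective_iff]
  refine ⟨hf, hg, fun i j h => hk ?_⟩
  rw [← h1 i, h, h2 j]

theorem iS_inj : Function.Injective (iS n) :=
  app_inj n (k := 0) (l := 3) (by decide) _ _ (ix_inj n 0) (ix_inj n 3) (fun _ => rfl) fun _ => rfl

theorem iB_inj : Function.Injective (iB n) :=
  app_inj n (k := 1) (l := 2) (by decide) _ _ (ix_inj n 1) (ix_inj n 2) (fun _ => rfl) fun _ => rfl

theorem iA_inj : Function.Injective (iA n) :=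
  app_inj n (k := 4) (l := 7) (by decide) _ _ (ix_inj n 4) (ix_inj n 7) (fun _ => rfl) fun _ => rfl

theorem app_kind {k l : Fin 8} (i : Fin (n k + n l)) :
    (Fin.append (ix n k) (ix n l) i).1 = k ∨ (Fin.append (ix n k) (ix n l) i).1 = l := by
  refine Fin.addCases (fun x => ?_) (fun x => ?_) i
  · rw [Fin.append_left]
    exact Or.inl rfl
  · rw [Fin.append_right]
    exact Or.inr rfl

theorem app_ex {k l : Fin 8} {i : In n} (h : i.1 = k ∨ i.1 = l) :
    ∃ x, Fin.append (ix n k) (ix n l) x = i := by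
  rcases h with h | h
  · obtain ⟨x, rfl⟩ := ix_kind n h
    exact ⟨Fin.castAdd _ x, Fin.append_left _ _ _⟩
  · obtain ⟨x, rfl⟩ := ix_kind n h
    exact ⟨Fin.natAdd _ x, Fin.append_right _ _ _⟩

/-- the rows -/
noncomputable def JRn : Finset (In n) := univ.filter fun i => i.1 = 0 ∨ i.1 = 3 ∨ i.1 = 1 ∨ i.1 = 2

/-- the columns -/
noncomputable def JCn : Finset (In n) := univ.filter fun i => i.1 = 0 ∨ i.1 = 3 ∨ i.1 = 4 ∨ i.1 = 7

/-- the primes `3` modulo `4` -/
noncomputable def J3n : Finset (In n) := univ.filter fun i => i.1 = 1 ∨ i.1 = 3 ∨ i.1 = 5 ∨ i.1 = 7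

/-- the numbering of the rows -/
def rn : Ks (n 0 + n 3) (n 1 + n 2) → In n := Sum.elim (iS n) (iB n)

/-- the numbering of the columns -/
def cn (hN : n 4 + n 7 = n 1 + n 2) : Ks (n 0 + n 3) (n 1 + n 2) → In n :=
  Sum.elim (iS n) fun j => iA n (Fin.cast hN.symm j)

theorem nm_n [LinearOrder (In n)] (hN : n 4 + n 7 = n 1 + n 2) :
    Nm (JRn n) (JCn n) (a3 (J3n n)) (bb (n 0) (n 3)) (rn n) (cn n hN) where
  rinj := by
    unfold rn
    refine Function.Injective.sumElim (iS_inj n) (iB_inj n) fun x y h => ?_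
    have h1 := app_kind n (k := 0) (l := 3) x
    have h2 := app_kind n (k := 1) (l := 2) y
    unfold iS iB at h
    rw [h] at h1
    rcases h1 with h1 | h1 <;> rcases h2 with h2 | h2 <;> rw [h1] at h2 <;> exact absurd h2 (by decide)
  cinj := by
    unfold cn
    refine Function.Injective.sumElim (iS_inj n) ((iA_inj n).comp (Fin.cast_injective _))
      fun x y h => ?_
    have h1 := app_kind n (k := 0) (l := 3) x
    have h2 := app_kind n (k := 4) (l := 7) (Fin.cast hN.symm y)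
    unfold iS iA at h
    rw [h] at h1
    rcases h1 with h1 | h1 <;> rcases h2 with h2 | h2 <;> rw [h1] at h2 <;> exact absurd h2 (by decide)
  rmem := by
    intro k
    unfold JRn rn
    rw [mem_filter]
    constructor
    · rintro ⟨-, h⟩
      have h' : (k.1 = 0 ∨ k.1 = 3) ∨ (k.1 = 1 ∨ k.1 = 2) := by tauto
      rcases h' with h' | h'
      · obtain ⟨x, hx⟩ := app_ex n h'
        exact ⟨Sum.inl x, hx⟩
      · obtain ⟨x, hx⟩ := app_ex n h'
        exact ⟨Sum.inr x, hx⟩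
    · rintro ⟨i, rfl⟩
      refine ⟨mem_univ _, ?_⟩
      rcases i with i | i
      · have h1 := app_kind n (k := 0) (l := 3) i
        show (iS n i).1 = 0 ∨ (iS n i).1 = 3 ∨ _
        unfold iS
        tauto
      · have h1 := app_kind n (k := 1) (l := 2) i
        show (iB n i).1 = 0 ∨ (iB n i).1 = 3 ∨ (iB n i).1 = 1 ∨ (iB n i).1 = 2
        unfold iB
        tauto
  cmem := by
    intro k
    unfold JCn cn
    rw [mem_filter]
    constructor
    · rintro ⟨-, h⟩
      have h' : (k.1 = 0 ∨ k.1 = 3) ∨ (k.1 = 4 ∨ k.1 = 7) := by tauto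
      rcases h' with h' | h'
      · obtain ⟨x, hx⟩ := app_ex n h'
        exact ⟨Sum.inl x, hx⟩
      · obtain ⟨x, hx⟩ := app_ex n h'
        refine ⟨Sum.inr (Fin.cast hN x), ?_⟩
        show iA n (Fin.cast hN.symm (Fin.cast hN x)) = k
        rw [← hx]
        rfl
    · rintro ⟨i, rfl⟩
      refine ⟨mem_univ _, ?_⟩
      rcases i with i | i
      · have h1 := app_kind n (k := 0) (l := 3) i
        show (iS n i).1 = 0 ∨ (iS n i).1 = 3 ∨ _
        unfold iS
        tauto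
      · have h1 := app_kind n (k := 4) (l := 7) (Fin.cast hN.symm i)
        show (iA n (Fin.cast hN.symm i)).1 = 0 ∨ (iA n (Fin.cast hN.symm i)).1 = 3 ∨
          (iA n (Fin.cast hN.symm i)).1 = 4 ∨ (iA n (Fin.cast hN.symm i)).1 = 7
        unfold iA
        tauto
  diag := fun i => rfl
  rB := by
    intro i h
    unfold JCn at h
    rw [mem_filter] at h
    have h1 : (iB n i).1 = 1 ∨ (iB n i).1 = 2 := app_kind n (k := 1) (l := 2) i
    have h2 : (iB n i).1 = 0 ∨ (iB n i).1 = 3 ∨ (iB n i).1 = 4 ∨ (iB n i).1 = 7 := h.2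
    rcases h1 with h1 | h1 <;> rw [h1] at h2 <;> exact absurd h2 (by decide)
  cA := by
    intro i h
    unfold JRn at h
    rw [mem_filter] at h
    have h1 : (iA n (Fin.cast hN.symm i)).1 = 4 ∨ (iA n (Fin.cast hN.symm i)).1 = 7 :=
      app_kind n (k := 4) (l := 7) _
    have h2 : (iA n (Fin.cast hN.symm i)).1 = 0 ∨ (iA n (Fin.cast hN.symm i)).1 = 3 ∨
      (iA n (Fin.cast hN.symm i)).1 = 1 ∨ (iA n (Fin.cast hN.symm i)).1 = 2 := h.2
    rcases h1 with h1 | h1 <;> rw [h1] at h2 <;> exact absurd h2 (by decide)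
  lab := by
    intro i
    show a3 (J3n n) (iS n i) = bb (n 0) (n 3) i
    refine Fin.addCases (fun x => ?_) (fun x => ?_) i
    · rw [bb_left]
      unfold iS a3
      rw [Fin.append_left, if_neg]
      unfold J3n
      rw [mem_filter]
      rintro ⟨-, h⟩
      have h' : (0 : Fin 8) = 1 ∨ (0 : Fin 8) = 3 ∨ (0 : Fin 8) = 5 ∨ (0 : Fin 8) = 7 := h
      exact absurd h' (by decide)
    · rw [bb_right]
      unfold iS a3
      rw [Fin.append_right, if_pos]
      unfold J3n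
      rw [mem_filter]
      exact ⟨mem_univ _, Or.inr (Or.inl rfl)⟩

/-- the kinds and the classes -/
theorem kinds (i : In n) (p : ℕ) (hp : Bp p) (h : cl p = tn n i) : (p.Prime ∧ p ≠ 2) ∧
    (i ∈ JRn n ↔ sq7 p) ∧ (i ∈ JCn n ↔ sq2 p) ∧ (i ∈ J3n n ↔ p % 4 = 3) := by
  have hodd : p % 2 = 1 := hp.1.eq_two_or_odd.resolve_left hp.2.1
  unfold tn cl at h
  refine ⟨⟨hp.1, hp.2.1⟩, ?_, ?_, ?_⟩
  · unfold JRn
    rw [mem_filter]
    simp only [mem_univ, true_and, Fin.ext_iff]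
    by_cases h7 : sq7 p
    · rw [if_pos h7] at h
      simp only [h7, iff_true]
      have := Nat.mod_lt p (by norm_num : 0 < 8)
      show ((i.1 : ℕ) = 0 ∨ (i.1 : ℕ) = 3 ∨ (i.1 : ℕ) = 1 ∨ (i.1 : ℕ) = 2)
      omega
    · rw [if_neg h7] at h
      simp only [h7, iff_false]
      show ¬ ((i.1 : ℕ) = 0 ∨ (i.1 : ℕ) = 3 ∨ (i.1 : ℕ) = 1 ∨ (i.1 : ℕ) = 2)
      omega
  · unfold JCn
    rw [mem_filter]
    simp only [mem_univ, true_and, Fin.ext_iff]
    unfold sq2
    show ((i.1 : ℕ) = 0 ∨ (i.1 : ℕ) = 3 ∨ (i.1 : ℕ) = 4 ∨ (i.1 : ℕ) = 7) ↔ _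
    split_ifs at h <;> omega
  · unfold J3n
    rw [mem_filter]
    simp only [mem_univ, true_and, Fin.ext_iff]
    show ((i.1 : ℕ) = 1 ∨ (i.1 : ℕ) = 3 ∨ (i.1 : ℕ) = 5 ∨ (i.1 : ℕ) = 7) ↔ _
    split_ifs at h <;> omega

theorem ex_l0 (hI : 0 < n 5 + n 6) : ∃ l₀ : In n, l₀ ∉ JRn n ∧ l₀ ∉ JCn n := by
  have h : 0 < n 5 ∨ 0 < n 6 := by omega
  rcases h with h | h
  · refine ⟨ix n 5 ⟨0, h⟩, ?_, ?_⟩
    · unfold JRn
      rw [mem_filter]
      rintro ⟨-, h'⟩
      have h'' : (5 : Fin 8) = 0 ∨ (5 : Fin 8) = 3 ∨ (5 : Fin 8) = 1 ∨ (5 : Fin 8) = 2 := h'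
      exact absurd h'' (by decide)
    · unfold JCn
      rw [mem_filter]
      rintro ⟨-, h'⟩
      have h'' : (5 : Fin 8) = 0 ∨ (5 : Fin 8) = 3 ∨ (5 : Fin 8) = 4 ∨ (5 : Fin 8) = 7 := h'
      exact absurd h'' (by decide)
  · refine ⟨ix n 6 ⟨0, h⟩, ?_, ?_⟩
    · unfold JRn
      rw [mem_filter]
      rintro ⟨-, h'⟩
      have h'' : (6 : Fin 8) = 0 ∨ (6 : Fin 8) = 3 ∨ (6 : Fin 8) = 1 ∨ (6 : Fin 8) = 2 := h'
      exact absurd h'' (by decide)
    · unfold JCn
      rw [mem_filter]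
      rintro ⟨-, h'⟩
      have h'' : (6 : Fin 8) = 0 ∨ (6 : Fin 8) = 3 ∨ (6 : Fin 8) = 4 ∨ (6 : Fin 8) = 7 := h'
      exact absurd h'' (by decide)

end num

/-- **The law in a box, with the kinds.** -/
theorem box_n (n : Fin 8 → ℕ) [LinearOrder (In n)] (hN : n 4 + n 7 = n 1 + n 2)
    (hI : 0 < n 5 + n 6) (f : ℕ → ZMod 2) :
    BoxH (HB (univ : Finset (In n))) Bp cl (tn n) (Gd f)
      (fr (n 0 + n 3) (n 1 + n 2) (bb (n 0) (n 3))) := by
  obtain ⟨l₀, h1, h2⟩ := ex_l0 n hI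
  exact box_law (nm_n n hN) h1 h2 f (kinds n)

end Pool.Agent.NH3.CC
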