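import Pool.Agent.NH5.PR.Stm

/-!
# The complete class, fixed numbers of primes: linear algebra

The matrices over the field with two elements with the rows of type `S`, `B` and the columns of type
`S`, `A` which come from all values of the quadratic symbols: all matrices whose square block `S` is
symmetric up to the law of quadratic reciprocity, equally often.
-/

set_option autoImplicit false
set_option linter.unusedVariables false
set_option linter.unusedSectionVars false

open scoped Classical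

namespace Pool.Agent.NH3.CC

open Finset Matrix
open Pool.Agent.Y703.CQ (prs)
open Pool.Agent.NH5.PR (ex2)

theorem two_add (x : ZMod 2) : x + x = 0 := by
  revert x; decide

/-- the index set of the rows and of the columns: `m` indices of type `S`, `n` further ones -/
abbrev Ks (m n : ℕ) : Type := Fin m ⊕ Fin n

/-- the block of the first `m` rows and columns is symmetric up to `b i * b j` -/
def Sm {m n : ℕ} (b : Fin m → ZMod 2) (M : Matrix (Ks m n) (Ks m n) (ZMod 2)) : Prop :=
  ∀ i j : Fin m, i ≠ j → M (Sum.inl i) (Sum.inl j) + M (Sum.inl j) (Sum.inl i) = b i * b j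

/-- the proportion of the nonsingular matrices -/
noncomputable def fr (m n : ℕ) (b : Fin m → ZMod 2) : ℝ :=
  ((univ.filter fun M : Matrix (Ks m n) (Ks m n) (ZMod 2) => Sm b M ∧ M.det ≠ 0).card : ℝ) /
    ((univ.filter fun M : Matrix (Ks m n) (Ks m n) (ZMod 2) => Sm b M).card : ℝ)

theorem fr_nonneg (m n : ℕ) (b : Fin m → ZMod 2) : 0 ≤ fr m n b := by
  unfold fr; positivity

theorem fr_le_one (m n : ℕ) (b : Fin m → ZMod 2) : fr m n b ≤ 1 := by
  unfold fr
  refine div_le_one_of_le₀ ?_ (Nat.cast_nonneg _)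
  have : (univ.filter fun M : Matrix (Ks m n) (Ks m n) (ZMod 2) => Sm b M ∧ M.det ≠ 0) ⊆
      univ.filter fun M : Matrix (Ks m n) (Ks m n) (ZMod 2) => Sm b M := by
    intro M hM
    rw [mem_filter] at hM ⊢
    exact ⟨hM.1, hM.2.1⟩
  exact_mod_cast card_le_card this

section main

variable {J : Type} [Fintype J] [LinearOrder J] {m n : ℕ}

/-- the system has only the zero solution; `JR` are the rows, `JC` the columns -/
def GdJ (JR JC : Finset J) (R : J → J → ZMod 2) (g : J → ZMod 2) : Prop :=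
  ∀ y : J → ZMod 2, (∀ k, k ∉ JC → y k = 0) →
    (∀ k ∈ JR, ∑ l, R k l * (y l + y k) + g k * y k = 0) → ∀ l, y l = 0

/-- the rows and the columns are numbered -/
structure Nm (JR JC : Finset J) (a : J → ZMod 2) (b : Fin m → ZMod 2)
    (r c : Ks m n → J) : Prop where
  rinj : Function.Injective r
  cinj : Function.Injective c
  rmem : ∀ k, k ∈ JR ↔ ∃ i, r i = k
  cmem : ∀ k, k ∈ JC ↔ ∃ i, c i = k
  diag : ∀ i : Fin m, r (Sum.inl i) = c (Sum.inl i)
  rB : ∀ i : Fin n, r (Sum.inr i) ∉ JC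
  cA : ∀ i : Fin n, c (Sum.inr i) ∉ JR
  lab : ∀ i : Fin m, a (r (Sum.inl i)) = b i

/-- the matrix of the system -/
noncomputable def ma (R : J → J → ZMod 2) (g : J → ZMod 2) (r c : Ks m n → J) :
    Matrix (Ks m n) (Ks m n) (ZMod 2) := fun i j =>
  if r i = c j then g (r i) + ∑ l, R (r i) l else R (r i) (c j)

variable {JR JC : Finset J} {a : J → ZMod 2} {b : Fin m → ZMod 2} {r c : Ks m n → J}

theorem rc_iff (h : Nm JR JC a b r c) (i j : Ks m n) :
    r i = c j ↔ ∃ k : Fin m, i = Sum.inl k ∧ j = Sum.inl k := by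
  constructor
  · intro e
    rcases i with i | i
    · refine ⟨i, rfl, ?_⟩
      apply h.cinj
      rw [← e, h.diag]
    · exact absurd ((h.cmem _).2 ⟨j, e.symm⟩) (h.rB i)
  · rintro ⟨k, rfl, rfl⟩
    exact h.diag k

/-- the system and the determinant -/
theorem gd_iff (h : Nm JR JC a b r c) (R : J → J → ZMod 2) (hR : ∀ k, R k k = 0)
    (g : J → ZMod 2) : GdJ JR JC R g ↔ (ma R g r c).det ≠ 0 := by
  have key : ∀ y : J → ZMod 2, (∀ k, k ∉ JC → y k = 0) → ∀ i : Ks m n,
      (ma R g r c *ᵥ fun j => y (c j)) i =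
        ∑ l, R (r i) l * (y l + y (r i)) + g (r i) * y (r i) := by
    intro y hy i
    have e1 : ∑ l, R (r i) l * (y l + y (r i)) = ∑ l, R (r i) l * y l + (∑ l, R (r i) l) * y (r i) := by
      rw [Finset.sum_mul, ← Finset.sum_add_distrib]
      exact Finset.sum_congr rfl fun l _ => mul_add _ _ _
    have e2 : ∑ l, R (r i) l * y l = ∑ j : Ks m n, R (r i) (c j) * y (c j) := by
      rw [← Finset.sum_image (s := (univ : Finset (Ks m n))) (g := c) (f := fun l => R (r i) l * y l)
        fun x _ y _ hxy => h.cinj hxy]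
      symm
      refine Finset.sum_subset (subset_univ _) fun l _ hl => ?_
      rw [hy l, mul_zero]
      intro hl'
      obtain ⟨j, rfl⟩ := (h.cmem l).1 hl'
      exact hl (mem_image_of_mem _ (mem_univ _))
    have e3 : (ma R g r c *ᵥ fun j => y (c j)) i = ∑ j : Ks m n, R (r i) (c j) * y (c j) +
        ∑ j : Ks m n, (if r i = c j then (g (r i) + ∑ l, R (r i) l) * y (r i) else 0) := by
      rw [← Finset.sum_add_distrib]
      unfold ma
      simp only [Matrix.mulVec, dotProduct]
      refine Finset.sum_congr rfl fun j _ => ?_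
      by_cases e : r i = c j
      · rw [if_pos e, if_pos e, ← e, hR, zero_mul, zero_add]
      · rw [if_neg e, if_neg e, add_zero]
    have e4 : ∑ j : Ks m n, (if r i = c j then (g (r i) + ∑ l, R (r i) l) * y (r i) else 0) =
        (g (r i) + ∑ l, R (r i) l) * y (r i) := by
      by_cases hi : r i ∈ JC
      · obtain ⟨j, hj⟩ := (h.cmem _).1 hi
        rw [Finset.sum_eq_single j]
        · rw [if_pos hj.symm]
        · intro j' _ hj'
          rw [if_neg]
          intro e
          exact hj' (h.cinj (e.symm.trans hj.symm))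
        · intro h'
          exact absurd (mem_univ _) h'
      · rw [hy _ hi, mul_zero]
        refine Finset.sum_eq_zero fun j _ => ?_
        split_ifs <;> rfl
    rw [e3, e4, e1, e2]
    ring
  constructor
  · intro hg hdet
    obtain ⟨v, hv, hv0⟩ := Matrix.exists_mulVec_eq_zero_iff.2 hdet
    set y : J → ZMod 2 := fun l => ∑ j, if c j = l then v j else 0 with hy
    have hyc : ∀ j, y (c j) = v j := by
      intro j
      rw [hy]
      simp only
      rw [Finset.sum_eq_single j]
      · rw [if_pos rfl]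
      · intro j' _ hj'
        rw [if_neg fun e => hj' (h.cinj e)]
      · intro h'
        exact absurd (mem_univ _) h'
    have hy0 : ∀ k, k ∉ JC → y k = 0 := by
      intro k hk
      rw [hy]
      refine Finset.sum_eq_zero fun j _ => ?_
      rw [if_neg]
      intro e
      exact hk ((h.cmem k).2 ⟨j, e⟩)
    apply hv
    funext j
    rw [← hyc, Pi.zero_apply]
    apply hg y hy0
    intro k hk
    obtain ⟨i, rfl⟩ := (h.rmem k).1 hk
    rw [← key y hy0 i]
    have : (fun j => y (c j)) = v := funext hyc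
    rw [this, hv0]
    rfl
  · intro hdet y hy heq
    by_contra hne
    push Not at hne
    obtain ⟨l, hl⟩ := hne
    apply hdet
    apply Matrix.exists_mulVec_eq_zero_iff.1
    refine ⟨fun j => y (c j), ?_, ?_⟩
    · intro h0
      apply hl
      by_cases hlc : l ∈ JC
      · obtain ⟨j, rfl⟩ := (h.cmem l).1 hlc
        exact congrFun h0 j
      · exact hy l hlc
    · funext i
      rw [key y hy i, Pi.zero_apply]
      exact heq _ ((h.rmem _).2 ⟨i, rfl⟩)

theorem ex2_self (t : J → J → ZMod 2) (α : prs (univ : Finset J) → ZMod 2) (k : J) :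
    ex2 t α k k = 0 := by
  have h : (k, k) ∉ prs (univ : Finset J) := by
    unfold prs
    rw [mem_filter]
    rintro ⟨-, -, h, -⟩
    exact h rfl
  unfold ex2
  rw [dif_neg h, dif_neg h]

theorem mem_prs (k l : J) : (k, l) ∈ prs (univ : Finset J) ↔ k < l := by
  unfold prs
  rw [mem_filter]
  constructor
  · rintro ⟨-, -, -, h⟩
    exact h (mem_univ _)
  · intro h
    exact ⟨mem_univ _, mem_univ _, h.ne', fun _ => h⟩

/-- the law of quadratic reciprocity -/
theorem ex2_rec (α : prs (univ : Finset J) → ZMod 2) {k l : J} (hkl : k ≠ l) :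
    ex2 (fun k l => a k * a l) α k l + ex2 (fun k l => a k * a l) α l k = a k * a l := by
  unfold ex2
  rcases lt_or_gt_of_ne hkl with h | h
  · rw [dif_neg (fun h' => absurd ((mem_prs _ _).1 h') (not_lt.2 h.le)), dif_pos ((mem_prs _ _).2 h),
      dif_pos ((mem_prs _ _).2 h)]
    have := two_add (α ⟨(k, l), (mem_prs _ _).2 h⟩)
    linear_combination this
  · rw [dif_pos ((mem_prs _ _).2 h), dif_neg (fun h' => absurd ((mem_prs _ _).1 h') (not_lt.2 h.le)),
      dif_pos ((mem_prs _ _).2 h)]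
    have := two_add (α ⟨(l, k), (mem_prs _ _).2 h⟩)
    linear_combination this + mul_comm (a l) (a k)

theorem ex2_add (t : J → J → ZMod 2) (α : prs (univ : Finset J) → ZMod 2) (T : J → J → ZMod 2)
    (hT : ∀ k l, T k l = T l k) (k l : J) :
    ex2 t (fun e => α e + T e.1.1 e.1.2) k l = ex2 t α k l + if k = l then 0 else T k l := by
  by_cases hkl : k = l
  · subst hkl
    rw [if_pos rfl, ex2_self, ex2_self, add_zero]
  · rw [if_neg hkl]
    unfold ex2
    rcases lt_or_gt_of_ne hkl with h | h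
    · rw [dif_neg (fun h' => absurd ((mem_prs _ _).1 h') (not_lt.2 h.le)),
        dif_neg (fun h' => absurd ((mem_prs _ _).1 h') (not_lt.2 h.le)),
        dif_pos ((mem_prs _ _).2 h), dif_pos ((mem_prs _ _).2 h)]
      ring
    · rw [dif_pos ((mem_prs _ _).2 h), dif_pos ((mem_prs _ _).2 h), hT k l]

/-- the matrix is symmetric up to reciprocity -/
theorem ma_sm (h : Nm JR JC a b r c) (α : prs (univ : Finset J) → ZMod 2) (g : J → ZMod 2) :
    Sm b (ma (ex2 (fun k l => a k * a l) α) g r c) := by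
  intro i j hij
  have h1 : r (Sum.inl i) ≠ c (Sum.inl j) := by
    intro e
    obtain ⟨k, e1, e2⟩ := (rc_iff h _ _).1 e
    exact hij ((Sum.inl.inj e1).trans (Sum.inl.inj e2).symm)
  have h2 : r (Sum.inl j) ≠ c (Sum.inl i) := by
    intro e
    obtain ⟨k, e1, e2⟩ := (rc_iff h _ _).1 e
    exact hij ((Sum.inl.inj e2).trans (Sum.inl.inj e1).symm)
  unfold ma
  rw [if_neg h1, if_neg h2, ← h.diag j, ← h.diag i, ex2_rec, h.lab, h.lab]
  rw [h.diag j]
  exact h1

/-- a matrix as a function of the rows and columns -/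
noncomputable def Dd (r c : Ks m n → J) (Δ : Matrix (Ks m n) (Ks m n) (ZMod 2)) (k l : J) : ZMod 2 :=
  ∑ i, ∑ j, if r i = k ∧ c j = l then Δ i j else 0

theorem Dd_rc (h : Nm JR JC a b r c) (Δ : Matrix (Ks m n) (Ks m n) (ZMod 2)) (i j : Ks m n) :
    Dd r c Δ (r i) (c j) = Δ i j := by
  unfold Dd
  rw [Finset.sum_eq_single i, Finset.sum_eq_single j, if_pos ⟨rfl, rfl⟩]
  · intro j' _ hj
    rw [if_neg]
    rintro ⟨-, e⟩
    exact hj (h.cinj e)
  · intro h'
    exact absurd (mem_univ _) h'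
  · intro i' _ hi
    refine Finset.sum_eq_zero fun j' _ => ?_
    rw [if_neg]
    rintro ⟨e, -⟩
    exact hi (h.rinj e)
  · intro h'
    exact absurd (mem_univ _) h'

theorem Dd_zero (h : Nm JR JC a b r c) (Δ : Matrix (Ks m n) (Ks m n) (ZMod 2)) {k l : J}
    (hk : k ∉ JR ∨ l ∉ JC) : Dd r c Δ k l = 0 := by
  unfold Dd
  refine Finset.sum_eq_zero fun i _ => Finset.sum_eq_zero fun j _ => ?_
  rw [if_neg]
  rintro ⟨e1, e2⟩
  rcases hk with hk | hk
  · exact hk ((h.rmem k).2 ⟨i, e1⟩)
  · exact hk ((h.cmem l).2 ⟨j, e2⟩)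

theorem mem_S (h : Nm JR JC a b r c) {k : J} (h1 : k ∈ JR) (h2 : k ∈ JC) :
    ∃ i : Fin m, r (Sum.inl i) = k ∧ c (Sum.inl i) = k := by
  obtain ⟨i, hi⟩ := (h.rmem k).1 h1
  rcases i with i | i
  · exact ⟨i, hi, by rw [← h.diag i]; exact hi⟩
  · exact absurd (hi ▸ h2) (h.rB i)

theorem Dd_symm (h : Nm JR JC a b r c) {Δ : Matrix (Ks m n) (Ks m n) (ZMod 2)}
    (hΔ : ∀ i j : Fin m, Δ (Sum.inl i) (Sum.inl j) = Δ (Sum.inl j) (Sum.inl i)) {k l : J}
    (hk : k ∈ JR ∧ k ∈ JC) (hl : l ∈ JR ∧ l ∈ JC) : Dd r c Δ k l = Dd r c Δ l k := by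
  obtain ⟨i, hi, hi'⟩ := mem_S h hk.1 hk.2
  obtain ⟨j, hj, hj'⟩ := mem_S h hl.1 hl.2
  have e1 := Dd_rc h Δ (Sum.inl i) (Sum.inl j)
  have e2 := Dd_rc h Δ (Sum.inl j) (Sum.inl i)
  rw [hi, hj'] at e1
  rw [hj, hi'] at e2
  rw [e1, e2, hΔ]

/-- the change of the symbols, without the index `l₀` -/
noncomputable def T0 (JR JC : Finset J) (r c : Ks m n → J)
    (Δ : Matrix (Ks m n) (Ks m n) (ZMod 2)) (k l : J) : ZMod 2 :=
  if (k ∈ JR ∧ k ∈ JC) ∧ (l ∈ JR ∧ l ∈ JC) then Dd r c Δ k l else Dd r c Δ k l + Dd r c Δ l k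

theorem T0_symm (h : Nm JR JC a b r c) {Δ : Matrix (Ks m n) (Ks m n) (ZMod 2)}
    (hΔ : ∀ i j : Fin m, Δ (Sum.inl i) (Sum.inl j) = Δ (Sum.inl j) (Sum.inl i)) (k l : J) :
    T0 JR JC r c Δ k l = T0 JR JC r c Δ l k := by
  unfold T0
  by_cases hS : (k ∈ JR ∧ k ∈ JC) ∧ (l ∈ JR ∧ l ∈ JC)
  · rw [if_pos hS, if_pos hS.symm]
    exact Dd_symm h hΔ hS.1 hS.2
  · rw [if_neg hS, if_neg fun h' => hS h'.symm, add_comm]

/-- the diagonal correction -/
noncomputable def wd (JR JC : Finset J) (r c : Ks m n → J)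
    (Δ : Matrix (Ks m n) (Ks m n) (ZMod 2)) (k : J) : ZMod 2 :=
  Dd r c Δ k k + ∑ l, if k = l then 0 else T0 JR JC r c Δ k l

/-- the change of the symbols -/
noncomputable def T1 (JR JC : Finset J) (r c : Ks m n → J)
    (Δ : Matrix (Ks m n) (Ks m n) (ZMod 2)) (l₀ k l : J) : ZMod 2 :=
  T0 JR JC r c Δ k l + (if l = l₀ ∧ k ∈ JR ∧ k ∈ JC then wd JR JC r c Δ k else 0) +
    (if k = l₀ ∧ l ∈ JR ∧ l ∈ JC then wd JR JC r c Δ l else 0)

theorem T1_symm (h : Nm JR JC a b r c) {Δ : Matrix (Ks m n) (Ks m n) (ZMod 2)}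
    (hΔ : ∀ i j : Fin m, Δ (Sum.inl i) (Sum.inl j) = Δ (Sum.inl j) (Sum.inl i)) (l₀ k l : J) :
    T1 JR JC r c Δ l₀ k l = T1 JR JC r c Δ l₀ l k := by
  unfold T1
  rw [T0_symm h hΔ k l, add_assoc, add_assoc, add_comm (ite _ _ _)]

/-- every symmetric change of the matrix comes from a change of the symbols -/
theorem ma_add (h : Nm JR JC a b r c) {Δ : Matrix (Ks m n) (Ks m n) (ZMod 2)}
    (hΔ : ∀ i j : Fin m, Δ (Sum.inl i) (Sum.inl j) = Δ (Sum.inl j) (Sum.inl i)) {l₀ : J}
    (hl1 : l₀ ∉ JR) (hl2 : l₀ ∉ JC) (t : J → J → ZMod 2) (α : prs (univ : Finset J) → ZMod 2)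
    (g : J → ZMod 2) :
    ma (ex2 t fun e => α e + T1 JR JC r c Δ l₀ e.1.1 e.1.2) g r c = ma (ex2 t α) g r c + Δ := by
  ext i j
  rw [Matrix.add_apply]
  have hrl : r i ≠ l₀ := fun e => hl1 (e ▸ (h.rmem _).2 ⟨i, rfl⟩)
  have hcl : c j ≠ l₀ := fun e => hl2 (e ▸ (h.cmem _).2 ⟨j, rfl⟩)
  have hri : r i ∈ JR := (h.rmem _).2 ⟨i, rfl⟩
  have hcj : c j ∈ JC := (h.cmem _).2 ⟨j, rfl⟩
  unfold ma
  simp only [ex2_add t α _ (T1_symm h hΔ l₀)]
  by_cases e : r i = c j
  · rw [if_pos e, if_pos e, Finset.sum_add_distrib]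
    have hS : r i ∈ JR ∧ r i ∈ JC := ⟨hri, e ▸ hcj⟩
    have e1 : ∑ l, (if r i = l then 0 else T1 JR JC r c Δ l₀ (r i) l) = Δ i j := by
      have e2 : ∀ l, (if r i = l then 0 else T1 JR JC r c Δ l₀ (r i) l) =
          (if r i = l then 0 else T0 JR JC r c Δ (r i) l) +
            (if l = l₀ then wd JR JC r c Δ (r i) else 0) := by
        intro l
        unfold T1
        by_cases hl : r i = l
        · rw [if_pos hl, if_pos hl, if_neg, add_zero]
          rw [← hl]
          exact hrl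
        · rw [if_neg hl, if_neg hl]
          have e3 : (if r i = l₀ ∧ l ∈ JR ∧ l ∈ JC then wd JR JC r c Δ l else 0) = 0 :=
            if_neg fun h' => hrl h'.1
          rw [e3, add_zero]
          congr 1
          by_cases h4 : l = l₀
          · rw [if_pos ⟨h4, hS⟩, if_pos h4]
          · rw [if_neg fun h' => h4 h'.1, if_neg h4]
      rw [Finset.sum_congr rfl fun l _ => e2 l, Finset.sum_add_distrib,
        Finset.sum_ite_eq' univ l₀ (fun _ => wd JR JC r c Δ (r i)), if_pos (mem_univ _)]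
      unfold wd
      have e5 := two_add (∑ l, if r i = l then 0 else T0 JR JC r c Δ (r i) l)
      have e6 : Dd r c Δ (r i) (r i) = Δ i j := by
        have := Dd_rc h Δ i j
        rw [← e] at this
        exact this
      rw [e6]
      linear_combination e5
    rw [e1]
    ring
  · simp only [if_neg e]
    congr 1
    unfold T1
    rw [if_neg fun h' => hcl h'.1, if_neg fun h' => hrl h'.1, add_zero, add_zero]
    unfold T0
    split_ifs with hS
    · exact Dd_rc h Δ i j
    · rw [Dd_rc h Δ i j, Dd_zero h Δ (k := c j) (l := r i), add_zero]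
      by_contra hc
      push Not at hc
      exact hS ⟨⟨hri, hc.2⟩, ⟨hc.1, hcj⟩⟩

/-- **All the matrices occur equally often.** -/
theorem count_ma (h : Nm JR JC a b r c) {l₀ : J} (hl1 : l₀ ∉ JR) (hl2 : l₀ ∉ JC)
    (g : J → ZMod 2) (Q : Matrix (Ks m n) (Ks m n) (ZMod 2) → Prop) :
    ((univ.filter fun α : prs (univ : Finset J) → ZMod 2 =>
        Q (ma (ex2 (fun k l => a k * a l) α) g r c)).card : ℝ) / 2 ^ (prs (univ : Finset J)).card =
      ((univ.filter fun M : Matrix (Ks m n) (Ks m n) (ZMod 2) => Sm b M ∧ Q M).card : ℝ) /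
        ((univ.filter fun M : Matrix (Ks m n) (Ks m n) (ZMod 2) => Sm b M).card : ℝ) := by
  set φ : (prs (univ : Finset J) → ZMod 2) → Matrix (Ks m n) (Ks m n) (ZMod 2) :=
    fun α => ma (ex2 (fun k l => a k * a l) α) g r c with hφ
  have hSm : ∀ α, Sm b (φ α) := fun α => ma_sm h α g
  set cN : ℕ := (univ.filter fun α => φ α = φ 0).card with hcN
  have hfib : ∀ M : Matrix (Ks m n) (Ks m n) (ZMod 2), Sm b M →
      (univ.filter fun α => φ α = M).card = cN := by
    intro M hM
    set Δ : Matrix (Ks m n) (Ks m n) (ZMod 2) := M + φ 0 with hΔd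
    have hΔ : ∀ i j : Fin m, Δ (Sum.inl i) (Sum.inl j) = Δ (Sum.inl j) (Sum.inl i) := by
      intro i j
      by_cases hij : i = j
      · rw [hij]
      · have e1 := hM i j hij
        have e2 := hSm 0 i j hij
        rw [hΔd, Matrix.add_apply, Matrix.add_apply]
        have e3 := two_add (b i * b j)
        have e4 := two_add (M (Sum.inl j) (Sum.inl i))
        have e5 := two_add (φ 0 (Sum.inl j) (Sum.inl i))
        linear_combination e1 + e2 + e3 - e4 - e5
    have hadd : ∀ α, φ (fun e => α e + T1 JR JC r c Δ l₀ e.1.1 e.1.2) = φ α + Δ :=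
      fun α => ma_add h hΔ hl1 hl2 _ α g
    have hMM : ∀ N : Matrix (Ks m n) (Ks m n) (ZMod 2), N + N = 0 := by
      intro N
      ext i j
      exact two_add _
    symm
    refine Finset.card_bij' (fun α _ => fun e => α e + T1 JR JC r c Δ l₀ e.1.1 e.1.2)
      (fun α _ => fun e => α e + T1 JR JC r c Δ l₀ e.1.1 e.1.2) ?_ ?_ ?_ ?_
    · intro α hα
      rw [mem_filter] at hα ⊢
      refine ⟨mem_univ _, ?_⟩
      rw [hadd, hα.2, hΔd, add_comm, add_assoc, hMM, add_zero]
    · intro α hα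
      rw [mem_filter] at hα ⊢
      refine ⟨mem_univ _, ?_⟩
      rw [hadd, hα.2, hΔd, ← add_assoc, hMM, zero_add]
    · intro α _
      funext e
      simp only [add_assoc, two_add, add_zero]
    · intro α _
      funext e
      simp only [add_assoc, two_add, add_zero]
  have htot : ∀ Q : Matrix (Ks m n) (Ks m n) (ZMod 2) → Prop,
      (univ.filter fun α => Q (φ α)).card =
        (univ.filter fun M : Matrix (Ks m n) (Ks m n) (ZMod 2) => Sm b M ∧ Q M).card * cN := by
    intro Q
    rw [Finset.card_eq_sum_card_fiberwise (f := φ)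
      (t := univ.filter fun M : Matrix (Ks m n) (Ks m n) (ZMod 2) => Sm b M ∧ Q M)]
    · rw [Finset.sum_congr rfl (g := fun _ => cN), Finset.sum_const, smul_eq_mul]
      intro M hM
      rw [mem_filter] at hM
      rw [← hfib M hM.2.1]
      congr 1
      ext α
      rw [mem_filter, mem_filter, mem_filter]
      constructor
      · rintro ⟨-, e⟩
        exact ⟨mem_univ _, e⟩
      · rintro ⟨-, e⟩
        exact ⟨⟨mem_univ _, e ▸ hM.2.2⟩, e⟩
    · intro α hα
      rw [Finset.mem_coe, mem_filter] at hα ⊢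
      exact ⟨mem_univ _, hSm α, hα.2⟩
  have hT : 2 ^ (prs (univ : Finset J)).card =
      (univ.filter fun M : Matrix (Ks m n) (Ks m n) (ZMod 2) => Sm b M).card * cN := by
    have e1 : (univ.filter fun α : prs (univ : Finset J) → ZMod 2 => True).card =
        2 ^ (prs (univ : Finset J)).card := by
      rw [Finset.filter_true, Finset.card_univ, Fintype.card_fun, ZMod.card, Fintype.card_coe]
    have e2 : (univ.filter fun M : Matrix (Ks m n) (Ks m n) (ZMod 2) => Sm b M ∧ True) =
        univ.filter fun M : Matrix (Ks m n) (Ks m n) (ZMod 2) => Sm b M := by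
      refine Finset.filter_congr fun M _ => ?_
      rw [and_true]
    rw [← e1, ← e2]
    convert htot fun _ => True
  have hc0 : (cN : ℝ) ≠ 0 := by
    intro h0
    have h1 : cN = 0 := by exact_mod_cast h0
    rw [h1, mul_zero] at hT
    exact absurd hT (by positivity)
  have hT' : (2 : ℝ) ^ (prs (univ : Finset J)).card =
      ((univ.filter fun M : Matrix (Ks m n) (Ks m n) (ZMod 2) => Sm b M).card : ℝ) * cN := by
    exact_mod_cast hT
  rw [htot Q, hT']
  push_cast
  rw [mul_div_mul_right _ _ hc0]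

/-- the proportion of the good symbols -/
theorem count_gd (h : Nm JR JC a b r c) {l₀ : J} (hl1 : l₀ ∉ JR) (hl2 : l₀ ∉ JC)
    (g : J → ZMod 2) :
    ((univ.filter fun α : prs (univ : Finset J) → ZMod 2 =>
        GdJ JR JC (ex2 (fun k l => a k * a l) α) g).card : ℝ) / 2 ^ (prs (univ : Finset J)).card =
      fr m n b := by
  have e : (univ.filter fun α : prs (univ : Finset J) → ZMod 2 =>
      GdJ JR JC (ex2 (fun k l => a k * a l) α) g) =
      univ.filter fun α : prs (univ : Finset J) → ZMod 2 =>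
        (ma (ex2 (fun k l => a k * a l) α) g r c).det ≠ 0 :=
    Finset.filter_congr fun α _ => gd_iff h _ (ex2_self _ α) g
  rw [e]
  unfold fr
  have h2 := count_ma h hl1 hl2 g fun M => M.det ≠ 0
  convert h2

end main

end Pool.Agent.NH3.CC
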