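import Pool.Agent.NH3.CC.Kinds

/-!
# The complete class: the law for arbitrary sparse sets of primes
-/

set_option autoImplicit false
set_option linter.unusedVariables false
set_option linter.unusedSectionVars false

open scoped Classical

namespace Pool.Agent.NH3.CC

open Finset Matrix
open Pool.Agent.NH1 (sq2 sq7 Pm sS sI sA sB)
open Pool.Agent.Y703.CQ (nr prs HB S_EQ)
open Pool.Agent.NH5.PR (ex2 Gd Sol)
open Pool.Agent.NH3.FK.G (BoxH BilH In tn Fn law_Fn card_Fn bilH_quad nk)

/-- the proportion of the nonsingular matrices -/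
noncomputable def FR (s t n : ℕ) : ℝ := fr (s + t) n (bb s t)

/-- **The law for arbitrary sparse sets.** -/
theorem law_cc (n : Fin 8 → ℕ) (hN : n 4 + n 7 = n 1 + n 2) (hI : 0 < n 5 + n 6)
    (f : ℕ → ZMod 2) {ε : ℝ} (hε : 0 ≤ ε) :
    ∃ C : ℝ, 0 < C ∧ ∀ (A : Finset ℕ) (X : ℕ), 1 ≤ X → (∀ p ∈ A, p ≤ X) →
      (∀ r, 0 < n r → (X : ℝ) ^ (2 / 3 + ε) ≤ (nk cl r (A.filter Bp) : ℝ)) →
      |({D : ℕ | Fn Bp cl A n D ∧ Gd f D.primeFactors}.ncard : ℝ) -
        FR (n 0) (n 3) (n 1 + n 2) * ({D : ℕ | Fn Bp cl A n D}.ncard : ℝ)| ≤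
      C * (X : ℝ) ^ (-(ε / 2)) * ({D : ℕ | Fn Bp cl A n D}.ncard : ℝ) := by
  let inst : LinearOrder (In n) := LinearOrder.lift' (Fintype.equivFin (In n))
    (Fintype.equivFin (In n)).injective
  have hpos : ∃ r, 0 < n r := by
    have h : 0 < n 5 ∨ 0 < n 6 := by omega
    rcases h with h | h
    · exact ⟨5, h⟩
    · exact ⟨6, h⟩
  exact law_Fn inst (fr_nonneg _ _ _) (fr_le_one _ _ _) (fun p hp => hp.1)
    (fun p _ => cl_lt p) (box_n n hN hI f) (bilH_quad (fun p hp => ⟨hp.1, hp.2.1⟩) hε) hpos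
    (by linarith) (by linarith)

/-- the size of the family -/
theorem size_cc (n : Fin 8 → ℕ) (A : Finset ℕ) :
    {D : ℕ | Fn Bp cl A n D}.ncard = ∏ r : Fin 8, (nk cl r (A.filter Bp)).choose (n r) :=
  card_Fn (fun p hp => hp.1) (fun p _ => cl_lt p) A n

/-- the numbers of the family are balanced -/
theorem bal {A : Finset ℕ} {n : Fin 8 → ℕ} (hN : n 4 + n 7 = n 1 + n 2) {D : ℕ}
    (h : Fn Bp cl A n D) : Pm D.primeFactors ∧ (sA D.primeFactors).card = (sB D.primeFactors).card := by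
  obtain ⟨h1, h2, h3⟩ := h
  refine ⟨fun p hp => (h2 p hp).2, ?_⟩
  have key : ∀ (S : Finset ℕ) (k l : ℕ), k ≠ l → (∀ p ∈ D.primeFactors, p ∈ S ↔ cl p = k ∨ cl p = l) →
      S ⊆ D.primeFactors → S.card = nk cl k D.primeFactors + nk cl l D.primeFactors := by
    intro S k l hkl hS hSD
    unfold nk
    rw [← Finset.card_union_of_disjoint]
    · congr 1
      ext p
      rw [mem_union, mem_filter, mem_filter]
      constructor
      · intro hp
        rcases (hS p (hSD hp)).1 hp with h | h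
        · exact Or.inl ⟨hSD hp, h⟩
        · exact Or.inr ⟨hSD hp, h⟩
      · rintro (⟨hp, h⟩ | ⟨hp, h⟩)
        · exact (hS p hp).2 (Or.inl h)
        · exact (hS p hp).2 (Or.inr h)
    · rw [Finset.disjoint_left]
      intro p hp hp'
      exact hkl ((mem_filter.1 hp).2.symm.trans (mem_filter.1 hp').2)
  rw [key (sA D.primeFactors) 4 7 (by norm_num) ?_ (Finset.filter_subset _ _),
    key (sB D.primeFactors) 1 2 (by norm_num) ?_ (Finset.filter_subset _ _)]
  · have e4 := h3 4
    have e7 := h3 7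
    have e1 := h3 1
    have e2 := h3 2
    have f4 : ((4 : Fin 8) : ℕ) = 4 := rfl
    have f7 : ((7 : Fin 8) : ℕ) = 7 := rfl
    have f1 : ((1 : Fin 8) : ℕ) = 1 := rfl
    have f2 : ((2 : Fin 8) : ℕ) = 2 := rfl
    rw [f4] at e4
    rw [f7] at e7
    rw [f1] at e1
    rw [f2] at e2
    omega
  · intro p hp
    have hodd : p % 2 = 1 := (h2 p hp).2.1.eq_two_or_odd.resolve_left (h2 p hp).2.2.1
    unfold sB cl sq2
    rw [mem_filter]
    split_ifs with h7
    · simp only [hp, true_and, h7, and_true]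
      omega
    · simp only [hp, true_and, h7, and_false, false_iff]
      omega
  · intro p hp
    have hodd : p % 2 = 1 := (h2 p hp).2.1.eq_two_or_odd.resolve_left (h2 p hp).2.2.1
    unfold sA cl sq2
    rw [mem_filter]
    split_ifs with h7
    · simp only [hp, true_and, h7, not_true_eq_false, and_false, false_iff]
      have := Nat.mod_lt p (by norm_num : 0 < 8)
      omega
    · simp only [hp, true_and, h7, not_false_eq_true, and_true]
      omega

end Pool.Agent.NH3.CC
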