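import Pool.Agent.NH3.CC.Law

/-!
# The complete class: the proportion is close to the infinite product
-/

set_option autoImplicit false
set_option linter.unusedVariables false
set_option linter.unusedSectionVars false

open scoped Classical

namespace Pool.Agent.NH3.CC

open Finset Matrix
open Pool.Agent.Y703.CQ (prs)
open Pool.Agent.NH5.PR (ex2 S_LA GdA eta)
open Pool.Agent.NH3.FK.G (In)

section main

variable {J : Type} [Fintype J] [LinearOrder J] {m n : ℕ} {JR JC : Finset J} {a : J → ZMod 2}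
  {b : Fin m → ZMod 2} {r c : Ks m n → J}

theorem card_R (h : Nm JR JC a b r c) : JR.card = m + n := by
  have e : JR = univ.image r := by
    ext k
    rw [h.rmem, mem_image]
    simp
  rw [e, Finset.card_image_of_injective _ h.rinj, Finset.card_univ]
  simp

theorem card_C (h : Nm JR JC a b r c) : JC.card = m + n := by
  have e : JC = univ.image c := by
    ext k
    rw [h.cmem, mem_image]
    simp
  rw [e, Finset.card_image_of_injective _ h.cinj, Finset.card_univ]
  simp

theorem card_RC (h : Nm JR JC a b r c) : (JR \ JC).card = n := by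
  have e : JR \ JC = univ.image (fun i : Fin n => r (Sum.inr i)) := by
    ext k
    rw [mem_sdiff, mem_image]
    constructor
    · rintro ⟨h1, h2⟩
      obtain ⟨i, rfl⟩ := (h.rmem k).1 h1
      rcases i with i | i
      · exact absurd ((h.cmem _).2 ⟨Sum.inl i, (h.diag i).symm⟩) h2
      · exact ⟨i, mem_univ _, rfl⟩
    · rintro ⟨i, -, rfl⟩
      exact ⟨(h.rmem _).2 ⟨_, rfl⟩, h.rB i⟩
  have hi : Function.Injective fun i : Fin n => r (Sum.inr i) := h.rinj.comp Sum.inr_injective
  rw [e, Finset.card_image_of_injective _ hi, Finset.card_univ, Fintype.card_fin]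

theorem card_CR (h : Nm JR JC a b r c) : (JC \ JR).card = n := by
  have e : JC \ JR = univ.image (fun i : Fin n => c (Sum.inr i)) := by
    ext k
    rw [mem_sdiff, mem_image]
    constructor
    · rintro ⟨h1, h2⟩
      obtain ⟨i, rfl⟩ := (h.cmem k).1 h1
      rcases i with i | i
      · exact absurd ((h.rmem _).2 ⟨Sum.inl i, h.diag i⟩) h2
      · exact ⟨i, mem_univ _, rfl⟩
    · rintro ⟨i, -, rfl⟩
      exact ⟨(h.cmem _).2 ⟨_, rfl⟩, h.cA i⟩
  have hi : Function.Injective fun i : Fin n => c (Sum.inr i) := h.cinj.comp Sum.inr_injective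
  rw [e, Finset.card_image_of_injective _ hi, Finset.card_univ, Fintype.card_fin]

theorem fr_eta0 (hLA : S_LA) (h : Nm JR JC a b r c) {l₀ : J} (hl1 : l₀ ∉ JR) (hl2 : l₀ ∉ JC) :
    |fr m n b - eta| ≤ 2 / 2 ^ n := by
  have h1 := hLA (Fin 0) J ∅ ∅ JR JC (fun k l => a k * a l)
    (by rw [card_R h, card_C h]) ⟨l₀, hl1, hl2⟩ (fun _ _ => 0) (fun _ _ => 0) (fun _ _ => 0)
    (fun _ => 0) (fun _ => 0) (fun w ⟨u, _⟩ => u.elim0) (fun w ⟨u, _⟩ => u.elim0)
  have h2 := count_gd h hl1 hl2 fun _ => 0
  have e : ∀ α : prs (univ : Finset J) → ZMod 2,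
      GdA (∅ : Finset (Fin 0)) ∅ JR JC (fun _ _ => 0) (fun _ _ => 0) (fun _ _ => 0)
        (ex2 (fun k l => a k * a l) α) (fun _ => 0) (fun _ => 0) ↔
      GdJ JR JC (ex2 (fun k l => a k * a l) α) fun _ => 0 := by
    intro α
    unfold GdA GdJ
    constructor
    · intro h y hy0 hy
      refine (h (fun _ => 0) y (fun u => u.elim0) hy0 (fun u => u.elim0) ?_).2
      intro k hk
      rw [Finset.univ_eq_empty, Finset.sum_empty, zero_add]
      exact hy k hk
    · intro h x y _ hy0 _ hy
      refine ⟨fun u => u.elim0, h y hy0 fun k hk => ?_⟩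
      have := hy k hk
      rw [Finset.univ_eq_empty, Finset.sum_empty, zero_add] at this
      exact this
  simp only [e] at h1
  have h3 : fr m n b = ((univ.filter fun α : prs (univ : Finset J) → ZMod 2 =>
      GdJ JR JC (ex2 (fun k l => a k * a l) α) fun _ => 0).card : ℝ) /
        2 ^ (prs (univ : Finset J)).card := h2.symm
  rw [h3]
  refine h1.trans (le_of_eq ?_)
  rw [card_RC h, card_CR h, Fintype.card_fin, pow_zero]
  ring

end main

/-- **The proportion is close to the infinite product.** -/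
theorem FR_eta (hLA : S_LA) (s t n : ℕ) : |FR s t n - eta| ≤ 2 / 2 ^ n := by
  set nn : Fin 8 → ℕ := ![s, n, 0, t, n, 1, 0, 0] with hnn
  let inst : LinearOrder (In nn) := LinearOrder.lift' (Fintype.equivFin (In nn))
    (Fintype.equivFin (In nn)).injective
  have hN : nn 4 + nn 7 = nn 1 + nn 2 := rfl
  have hI : 0 < nn 5 + nn 6 := by
    show 0 < 1 + 0
    norm_num
  obtain ⟨l₀, h1, h2⟩ := ex_l0 nn hI
  exact fr_eta0 hLA (nm_n nn hN) h1 h2

end Pool.Agent.NH3.CC
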